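import Mathlib

/-!
# Ring endomorphisms of `K[[w]]` fixing the variables: leading forms

`Φ` a ring endomorphism of `MvPowerSeries τ K` with `Φ (X i) = X i` and
`constantCoeff (Φ f) = sg (constantCoeff f)`.  Then `Φ` preserves the order filtration and acts by
`sg` on the coefficients of the leading form.
-/

namespace H85.CH

open MvPowerSeries Finsupp

/-- all coefficients of degree `< s` vanish -/
def Lo {τ K : Type*} [CommRing K] (s : ℕ) (f : MvPowerSeries τ K) : Prop :=
  ∀ d : τ →₀ ℕ, d.degree < s → coeff d f = 0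

theorem Lo.add {τ K : Type*} [CommRing K] {s : ℕ} {f g : MvPowerSeries τ K} (hf : Lo s f)
    (hg : Lo s g) : Lo s (f + g) := fun d hd => by rw [map_add, hf d hd, hg d hd, add_zero]

theorem Lo.sub {τ K : Type*} [CommRing K] {s : ℕ} {f g : MvPowerSeries τ K} (hf : Lo s f)
    (hg : Lo s g) : Lo s (f - g) := fun d hd => by rw [map_sub, hf d hd, hg d hd, sub_zero]

theorem Lo.neg {τ K : Type*} [CommRing K] {s : ℕ} {f : MvPowerSeries τ K} (hf : Lo s f) :
    Lo s (-f) := fun d hd => by rw [map_neg, hf d hd, neg_zero]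

theorem Lo.zero {τ K : Type*} [CommRing K] {s : ℕ} : Lo s (0 : MvPowerSeries τ K) :=
  fun d _ => by rw [map_zero]

theorem Lo.of_zero {τ K : Type*} [CommRing K] (f : MvPowerSeries τ K) : Lo 0 f :=
  fun d hd => absurd hd (by simp)

theorem Lo.mono {τ K : Type*} [CommRing K] {s s' : ℕ} {f : MvPowerSeries τ K} (hf : Lo s f)
    (h : s' ≤ s) : Lo s' f := fun d hd => hf d (by omega)

theorem Lo.sum {τ K ι : Type*} [CommRing K] {s : ℕ} {f : ι → MvPowerSeries τ K} (T : Finset ι)
    (hf : ∀ i ∈ T, Lo s (f i)) : Lo s (∑ i ∈ T, f i) := fun d hd => by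
  rw [map_sum]
  exact Finset.sum_eq_zero fun i hi => hf i hi d hd

theorem Lo.mul {τ K : Type*} [CommRing K] {s s' : ℕ} {f g : MvPowerSeries τ K} (hf : Lo s f)
    (hg : Lo s' g) : Lo (s + s') (f * g) := by
  classical
  intro d hd
  rw [coeff_mul]
  refine Finset.sum_eq_zero fun p hp => ?_
  have h1 : p.1 + p.2 = d := Finset.HasAntidiagonal.mem_antidiagonal.1 hp
  have h2 : p.1.degree + p.2.degree = d.degree := by rw [← h1, map_add]
  by_cases h3 : p.1.degree < s
  · rw [hf _ h3, zero_mul]
  · rw [hg _ (by omega), mul_zero]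

theorem Lo.mul_left {τ K : Type*} [CommRing K] {s : ℕ} (f : MvPowerSeries τ K)
    {g : MvPowerSeries τ K} (hg : Lo s g) : Lo s (f * g) := by
  have := (Lo.of_zero f).mul hg
  rwa [zero_add] at this

theorem coeff_X_mul' {τ K : Type*} [CommRing K] (i : τ) (h : MvPowerSeries τ K) (d : τ →₀ ℕ) :
    coeff d (X i * h) = if d i = 0 then 0 else coeff (d - single i 1) h := by
  classical
  rw [X, coeff_monomial_mul, one_mul]
  by_cases h0 : d i = 0
  · rw [if_pos h0, if_neg]
    intro hle
    have := hle i
    rw [Finsupp.single_eq_same] at this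
    omega
  · rw [if_neg h0, if_pos]
    intro j
    by_cases hj : j = i
    · subst hj
      rw [Finsupp.single_eq_same]
      omega
    · rw [Finsupp.single_eq_of_ne hj]
      exact Nat.zero_le _

theorem Lo.X_mul {τ K : Type*} [CommRing K] {s : ℕ} (i : τ)
    {g : MvPowerSeries τ K} (hg : Lo s g) : Lo (s + 1) (X i * g) := by
  intro d hd
  rw [coeff_X_mul']
  by_cases h0 : d i = 0
  · rw [if_pos h0]
  rw [if_neg h0]
  apply hg
  have h1 : d = (d - single i 1) + single i 1 := by
    ext j
    by_cases hj : j = i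
    · subst hj
      simp
      omega
    · simp [Finsupp.single_eq_of_ne hj]
  have h2 : d.degree = (d - single i 1).degree + 1 := by
    conv_lhs => rw [h1]
    rw [map_add, Finsupp.degree_single]
  omega

theorem degree_sub_single {τ : Type*} {i : τ} {d : τ →₀ ℕ} (h0 : d i ≠ 0) :
    (d - single i 1).degree + 1 = d.degree := by
  have h1 : d = (d - single i 1) + single i 1 := by
    ext j
    by_cases hj : j = i
    · subst hj
      simp
      omega
    · simp [Finsupp.single_eq_of_ne hj]
  conv_rhs => rw [h1]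
  rw [map_add, Finsupp.degree_single]

/-- a power series with given coefficients -/
def ofCoeff {τ K : Type*} (φ : (τ →₀ ℕ) → K) : MvPowerSeries τ K := φ

theorem coeff_ofCoeff {τ K : Type*} [CommRing K] (φ : (τ →₀ ℕ) → K) (d : τ →₀ ℕ) :
    coeff d (ofCoeff φ) = φ d := rfl

/-- division by the variables -/
theorem exists_decomp {τ K : Type*} [Fintype τ] [CommRing K] (s : ℕ) (f : MvPowerSeries τ K)
    (hf : Lo (s + 1) f) :
    ∃ g : τ → MvPowerSeries τ K, (∀ i, Lo s (g i)) ∧ f = ∑ i, X i * g i := by
  classical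
  -- choice of an index in the support
  have hch : ∀ d : τ →₀ ℕ, ∃ i : Option τ, (d ≠ 0 → ∃ j, i = some j ∧ d j ≠ 0) := by
    intro d
    by_cases hd : d = 0
    · exact ⟨none, fun h => absurd hd h⟩
    · obtain ⟨j, hj⟩ := Finsupp.ne_iff.1 hd
      exact ⟨some j, fun _ => ⟨j, rfl, hj⟩⟩
  choose ch hch using hch
  refine ⟨fun i => ofCoeff fun e =>
    if ch (e + single i 1) = some i then coeff (e + single i 1) f else 0, ?_, ?_⟩
  · intro i d hd
    rw [coeff_ofCoeff]
    split_ifs
    · apply hf
      rw [map_add, Finsupp.degree_single]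
      omega
    · rfl
  · ext d
    rw [map_sum]
    by_cases hd : d = 0
    · subst hd
      rw [hf 0 (by simp)]
      symm
      refine Finset.sum_eq_zero fun i _ => ?_
      rw [coeff_X_mul', if_pos (by simp)]
    · obtain ⟨j, hj, hdj⟩ := hch d hd
      rw [Finset.sum_eq_single j]
      · rw [coeff_X_mul', if_neg hdj, coeff_ofCoeff]
        have h1 : d - single j 1 + single j 1 = d := by
          ext i
          by_cases hi : i = j
          · subst hi
            simp
            omega
          · simp [Finsupp.single_eq_of_ne hi]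
        rw [h1, if_pos hj]
      · intro i _ hij
        rw [coeff_X_mul']
        by_cases h0 : d i = 0
        · rw [if_pos h0]
        rw [if_neg h0, coeff_ofCoeff]
        have h1 : d - single i 1 + single i 1 = d := by
          ext l
          by_cases hl : l = i
          · subst hl
            simp
            omega
          · simp [Finsupp.single_eq_of_ne hl]
        rw [h1, if_neg]
        rw [hj]
        intro h
        exact hij (Option.some.inj h).symm
      · intro h
        exact absurd (Finset.mem_univ j) h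

/-- the leading form of `Φ f` -/
theorem lead_form {τ K : Type*} [Fintype τ] [CommRing K]
    (Φ : MvPowerSeries τ K →+* MvPowerSeries τ K) (sg : K → K)
    (hX : ∀ i, Φ (X i) = X i) (h0 : sg 0 = 0) (hadd : ∀ x y, sg (x + y) = sg x + sg y)
    (hc : ∀ f, constantCoeff (Φ f) = sg (constantCoeff f)) (s : ℕ) :
    ∀ f : MvPowerSeries τ K, Lo s f →
      Lo s (Φ f) ∧ ∀ d : τ →₀ ℕ, d.degree = s → coeff d (Φ f) = sg (coeff d f) := by
  classical
  have hsum : ∀ (T : Finset τ) (a : τ → K), sg (∑ i ∈ T, a i) = ∑ i ∈ T, sg (a i) := by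
    intro T a
    induction T using Finset.induction_on with
    | empty => simp [h0]
    | insert i T hi ih => rw [Finset.sum_insert hi, Finset.sum_insert hi, hadd, ih]
  induction s with
  | zero =>
    intro f _
    refine ⟨Lo.of_zero _, ?_⟩
    intro d hd
    have hd0 : d = 0 := (Finsupp.degree_eq_zero_iff d).1 hd
    subst hd0
    exact hc f
  | succ s ih =>
    intro f hf
    obtain ⟨g, hg, rfl⟩ := exists_decomp s f hf
    rw [map_sum]
    simp only [map_mul, hX]
    refine ⟨Lo.sum _ fun i _ => Lo.X_mul i (ih (g i) (hg i)).1, ?_⟩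
    intro d hd
    rw [map_sum, map_sum, hsum]
    refine Finset.sum_congr rfl fun i _ => ?_
    rw [coeff_X_mul', coeff_X_mul']
    by_cases h1 : d i = 0
    · rw [if_pos h1, if_pos h1, h0]
    · rw [if_neg h1, if_neg h1]
      exact (ih (g i) (hg i)).2 _ (by have := degree_sub_single h1; omega)

/-- truncation in degrees `< s` -/
noncomputable def tr {τ K : Type*} [CommRing K] (s : ℕ) (f : MvPowerSeries τ K) :
    MvPowerSeries τ K := fun d => if d.degree < s then coeff d f else 0

theorem coeff_tr {τ K : Type*} [CommRing K] (s : ℕ) (f : MvPowerSeries τ K) (d : τ →₀ ℕ) :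
    coeff d (tr s f) = if d.degree < s then coeff d f else 0 := rfl

theorem Lo.sub_tr {τ K : Type*} [CommRing K] (s : ℕ) (f : MvPowerSeries τ K) :
    Lo s (f - tr s f) := fun d hd => by rw [map_sub, coeff_tr, if_pos hd, sub_self]

/-- degree `< s` part: finitely many monomials -/
theorem finite_degree {τ : Type*} [Fintype τ] (s : ℕ) :
    {d : τ →₀ ℕ | d.degree < s}.Finite := by
  classical
  have h1 : ({d : τ → ℕ | ∀ i, d i < s}).Finite := by
    have := Set.Finite.pi (ι := τ) (t := fun _ => {n : ℕ | n < s}) (fun _ => Set.finite_lt_nat s)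
    refine this.subset ?_
    intro d hd i _
    exact hd i
  refine (h1.preimage (f := fun d : τ →₀ ℕ => (d : τ → ℕ))
    (fun a _ b _ h => DFunLike.coe_injective h)).subset ?_
  intro d hd i
  have h2 : d i ≤ d.degree := by
    rw [Finsupp.degree_apply]
    by_cases h3 : i ∈ d.support
    · exact Finset.single_le_sum (f := fun i => d i) (fun _ _ => Nat.zero_le _) h3
    · rw [Finsupp.notMem_support_iff.1 h3]
      exact Nat.zero_le _
  have hd' : d.degree < s := hd
  show d i < s
  omega

/-- the truncation as a finite sum of monomials -/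
theorem tr_eq_sum {τ K : Type*} [Fintype τ] [CommRing K] (s : ℕ) (f : MvPowerSeries τ K) :
    tr s f = ∑ d ∈ (finite_degree (τ := τ) s).toFinset, C (coeff d f) * monomial d 1 := by
  classical
  ext e
  rw [coeff_tr, map_sum]
  simp only [coeff_C_mul, coeff_monomial, mul_ite, mul_one, mul_zero]
  by_cases he : e.degree < s
  · rw [if_pos he, Finset.sum_eq_single e]
    · rw [if_pos rfl]
    · intro d _ hd
      rw [if_neg (Ne.symm hd)]
    · intro h
      exact absurd ((finite_degree (τ := τ) s).mem_toFinset.2 he) h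
  · rw [if_neg he]
    symm
    refine Finset.sum_eq_zero fun d hd => ?_
    rw [if_neg]
    rintro rfl
    exact he ((finite_degree (τ := τ) s).mem_toFinset.1 hd)

/-- a monomial with coefficient one is fixed -/
theorem map_monomial_one {τ K : Type*} [CommRing K]
    (Φ : MvPowerSeries τ K →+* MvPowerSeries τ K) (hX : ∀ i, Φ (X i) = X i) (d : τ →₀ ℕ) :
    Φ (monomial d 1) = monomial d 1 := by
  classical
  induction d using Finsupp.induction with
  | zero =>
    have : (monomial (0 : τ →₀ ℕ) (1 : K)) = 1 := rfl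
    rw [this, map_one]
  | single_add i n d _ _ ih =>
    have h1 : (monomial (single i n + d) (1 : K)) = X i ^ n * monomial d 1 := by
      rw [X_pow_eq, monomial_mul_monomial, one_mul]
    rw [h1, map_mul, map_pow, hX, ih]

/-- the truncation of a series with fixed coefficients is fixed -/
theorem map_tr {τ K : Type*} [Fintype τ] [CommRing K]
    (Φ : MvPowerSeries τ K →+* MvPowerSeries τ K) (hX : ∀ i, Φ (X i) = X i) (s : ℕ)
    (f : MvPowerSeries τ K) (hf : ∀ d : τ →₀ ℕ, d.degree < s → Φ (C (coeff d f)) = C (coeff d f)) :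
    Φ (tr s f) = tr s f := by
  classical
  rw [tr_eq_sum, map_sum]
  refine Finset.sum_congr rfl fun d hd => ?_
  rw [map_mul, map_monomial_one Φ hX, hf d ((finite_degree (τ := τ) s).mem_toFinset.1 hd)]

/-- common fixed points have fixed coefficients -/
theorem fixed_coeff {τ K : Type*} [Fintype τ] [CommRing K]
    (Q : Set (MvPowerSeries τ K →+* MvPowerSeries τ K)) (sg : (MvPowerSeries τ K →+* MvPowerSeries τ K) → K → K)
    (hX : ∀ Φ ∈ Q, ∀ i, Φ (X i) = X i) (h0 : ∀ Φ ∈ Q, sg Φ 0 = 0)
    (hadd : ∀ Φ ∈ Q, ∀ x y, sg Φ (x + y) = sg Φ x + sg Φ y)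
    (hc : ∀ Φ ∈ Q, ∀ f, constantCoeff (Φ f) = sg Φ (constantCoeff f))
    (hk : ∀ c : K, (∀ Φ ∈ Q, sg Φ c = c) → ∀ Φ ∈ Q, Φ (C c) = C c)
    (f : MvPowerSeries τ K) (hf : ∀ Φ ∈ Q, Φ f = f) :
    ∀ d : τ →₀ ℕ, ∀ Φ ∈ Q, sg Φ (coeff d f) = coeff d f := by
  classical
  intro d
  induction hn : d.degree using Nat.strong_induction_on generalizing d with
  | _ n ih =>
    have hfix : ∀ Φ ∈ Q, Φ (tr n f) = tr n f := fun Φ hΦ =>
      map_tr Φ (hX Φ hΦ) n f (fun e he => hk _ (fun Ψ hΨ => ih e.degree he e rfl Ψ hΨ) Φ hΦ)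
    intro Φ hΦ
    have h1 : Φ (f - tr n f) = f - tr n f := by rw [map_sub, hf Φ hΦ, hfix Φ hΦ]
    have h2 := (lead_form Φ (sg Φ) (hX Φ hΦ) (h0 Φ hΦ) (hadd Φ hΦ) (hc Φ hΦ) n (f - tr n f)
      (Lo.sub_tr n f)).2 d hn
    rw [h1] at h2
    have h3 : coeff d (f - tr n f) = coeff d f := by
      rw [map_sub, coeff_tr, if_neg (by omega), sub_zero]
    rw [h3] at h2
    exact h2.symm

end H85.CH
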