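import Pool.Agent.H85.CH.Gd1
import Pool.Agent.H85.CH.Gd2

/-!
# Graded descent

`BB = K[[w]]`, a set `Q` of pairs `(s, Φ)`, `s` an automorphism of `K`, `Φ` a ring endomorphism of
`BB` fixing the variables and the constants in `k`, lying over `s` modulo the variables; `k` the
common fixed field of the `s`.  A closed ideal `J` of `BB` with `Φ J ⊆ J` is the closure of the ideal
generated by `J ∩ k[[w]]`.
-/

namespace H85.CH

open MvPowerSeries Finsupp

/-- the leading form in degree `s` -/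
noncomputable def ld {τ K : Type*} [Fintype τ] [CommRing K] (s : ℕ) (f : MvPowerSeries τ K) :
    (τ →₀ ℕ) →₀ K := by
  classical
  exact Finsupp.onFinset (finite_degree (τ := τ) (s + 1)).toFinset
    (fun d => if d.degree = s then coeff d f else 0) (by
      intro d hd
      rw [Set.Finite.mem_toFinset]
      have : d.degree = s := by
        by_contra h
        exact hd (if_neg h)
      show d.degree < s + 1
      omega)

theorem ld_apply {τ K : Type*} [Fintype τ] [CommRing K] (s : ℕ) (f : MvPowerSeries τ K)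
    (d : τ →₀ ℕ) : ld s f d = if d.degree = s then coeff d f else 0 := by
  classical
  simp only [ld, Finsupp.onFinset_apply]

theorem ld_add {τ K : Type*} [Fintype τ] [CommRing K] (s : ℕ) (f g : MvPowerSeries τ K) :
    ld s (f + g) = ld s f + ld s g := by
  ext d
  rw [Finsupp.add_apply, ld_apply, ld_apply, ld_apply]
  split_ifs
  · rw [map_add]
  · rw [add_zero]

theorem ld_sub {τ K : Type*} [Fintype τ] [CommRing K] (s : ℕ) (f g : MvPowerSeries τ K) :
    ld s (f - g) = ld s f - ld s g := by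
  ext d
  rw [Finsupp.sub_apply, ld_apply, ld_apply, ld_apply]
  split_ifs
  · rw [map_sub]
  · rw [sub_zero]

theorem ld_zero {τ K : Type*} [Fintype τ] [CommRing K] (s : ℕ) :
    ld s (0 : MvPowerSeries τ K) = 0 := by
  ext d
  rw [ld_apply, map_zero, ite_self, Finsupp.zero_apply]

theorem ld_smul {τ K : Type*} [Fintype τ] [CommRing K] (s : ℕ) (c : K) (f : MvPowerSeries τ K) :
    ld s (C c * f) = c • ld s f := by
  ext d
  rw [Finsupp.smul_apply, ld_apply, ld_apply, smul_eq_mul]
  split_ifs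
  · rw [coeff_C_mul]
  · rw [mul_zero]

theorem Lo.succ {τ K : Type*} [Fintype τ] [CommRing K] {s : ℕ} {f : MvPowerSeries τ K}
    (hf : Lo s f) (h : ld s f = 0) : Lo (s + 1) f := by
  intro d hd
  by_cases h1 : d.degree < s
  · exact hf d h1
  · have h2 : d.degree = s := by omega
    have := DFunLike.congr_fun h d
    rwa [ld_apply, if_pos h2] at this

/-- the space of leading forms of an ideal -/
def lds {τ K : Type*} [Fintype τ] [CommRing K] (s : ℕ) (J : Ideal (MvPowerSeries τ K)) :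
    Submodule K ((τ →₀ ℕ) →₀ K) where
  carrier := {w | ∃ f ∈ J, Lo s f ∧ ld s f = w}
  add_mem' := by
    rintro _ _ ⟨f, hf, hf1, rfl⟩ ⟨g, hg, hg1, rfl⟩
    exact ⟨f + g, J.add_mem hf hg, hf1.add hg1, ld_add s f g⟩
  zero_mem' := ⟨0, J.zero_mem, Lo.zero, ld_zero s⟩
  smul_mem' := by
    rintro c _ ⟨f, hf, hf1, rfl⟩
    exact ⟨C c * f, J.mul_mem_left _ hf, hf1.mul_left _, ld_smul s c f⟩

theorem graded_descent {τ K k : Type*} [Fintype τ] [Field K] [Field k] [Algebra k K]
    (Q : Set ((K ≃+* K) × (MvPowerSeries τ K →+* MvPowerSeries τ K)))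
    (hX : ∀ q ∈ Q, ∀ i, q.2 (X i) = X i)
    (hc : ∀ q ∈ Q, ∀ f, constantCoeff (q.2 f) = q.1 (constantCoeff f))
    (hk : ∀ q ∈ Q, ∀ c : k, q.2 (C (algebraMap k K c)) = C (algebraMap k K c))
    (hfix : ∀ x : K, (∀ q ∈ Q, q.1 x = x) → ∃ c : k, algebraMap k K c = x)
    (J : Ideal (MvPowerSeries τ K)) (hJ : ∀ q ∈ Q, ∀ f ∈ J, q.2 f ∈ J)
    (hcl : ∀ f, (∀ s, ∃ g ∈ J, Lo s (f - g)) → f ∈ J)
    (s : ℕ) (f : MvPowerSeries τ K) (hf : f ∈ J) :
    ∃ g ∈ Ideal.map (MvPowerSeries.map (σ := τ) (algebraMap k K))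
      (Ideal.comap (MvPowerSeries.map (σ := τ) (algebraMap k K)) J), Lo s (f - g) := by
  classical
  set U : Set (K ≃+* K) := Prod.fst '' Q with hU
  -- action on leading forms
  have hlead : ∀ q ∈ Q, ∀ (s : ℕ) (f : MvPowerSeries τ K), Lo s f →
      Lo s (q.2 f) ∧ act q.1 (ld s f) = ld s (q.2 f) := by
    intro q hq s f hf
    have h := lead_form q.2 q.1 (hX q hq) (map_zero _) (map_add _) (hc q hq) s f hf
    refine ⟨h.1, ?_⟩
    ext d
    rw [act_apply, ld_apply, ld_apply]
    split_ifs with hd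
    · rw [h.2 d hd]
    · rw [map_zero]
  have hst : ∀ s, ∀ u ∈ U, ∀ w ∈ lds s J, act u w ∈ lds s J := by
    rintro s _ ⟨q, hq, rfl⟩ _ ⟨f, hf, hf1, rfl⟩
    exact ⟨q.2 f, hJ q hq f hf, (hlead q hq s f hf1).1, (hlead q hq s f hf1).2.symm⟩
  -- the approximation step
  have hstep : ∀ (j : ℕ) (g : MvPowerSeries τ K), g ∈ J →
      (∀ d : τ →₀ ℕ, d.degree < j → ∀ q ∈ Q, q.1 (coeff d g) = coeff d g) →
      ∃ g' ∈ J, (∀ d : τ →₀ ℕ, d.degree < j + 1 → ∀ q ∈ Q, q.1 (coeff d g') = coeff d g') ∧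
        Lo j (g' - g) := by
    intro j g hg hgf
    have hT : ∀ q ∈ Q, q.2 (tr j g) = tr j g := by
      intro q hq
      refine map_tr q.2 (hX q hq) j g ?_
      intro d hd
      obtain ⟨c, hc'⟩ := hfix _ (hgf d hd)
      rw [← hc', hk q hq]
    set r := g - tr j g with hr
    have hrLo : Lo j r := Lo.sub_tr j g
    have h1 : ∀ u ∈ U, act u (ld j r) - ld j r ∈ lds j J := by
      rintro _ ⟨q, hq, rfl⟩
      have h2 : q.2 g - g = q.2 r - r := by
        rw [hr, map_sub, hT q hq]; abel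
      refine ⟨q.2 g - g, J.sub_mem (hJ q hq g hg) hg, ?_, ?_⟩
      · rw [h2]; exact (hlead q hq j r hrLo).1.sub hrLo
      · rw [h2, ld_sub, (hlead q hq j r hrLo).2]
    obtain ⟨r0, hr0, hr1⟩ := gd1' U (lds j J) (hst j) (ld j r) h1
    obtain ⟨h, hh, hhLo, hhl⟩ := hr1
    refine ⟨g - h, J.sub_mem hg hh, ?_, ?_⟩
    · intro d hd q hq
      by_cases hdj : d.degree < j
      · rw [map_sub, hhLo d hdj, sub_zero]
        exact hgf d hdj q hq
      · have hdj' : d.degree = j := by omega
        have h3 : coeff d (g - h) = r0 d := by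
          have h4 := DFunLike.congr_fun hhl d
          rw [ld_apply, if_pos hdj', Finsupp.sub_apply, ld_apply, if_pos hdj'] at h4
          have h5 : coeff d r = coeff d g := by
            rw [hr, map_sub, coeff_tr, if_neg hdj, sub_zero]
          rw [map_sub, h4, h5]
          abel
        rw [h3]
        exact hr0 q.1 ⟨q, hq, rfl⟩ d
    · have : g - h - g = -h := by abel
      rw [this]
      exact hhLo.neg
  -- elements over k with given fixed leading form
  have hB : ∀ (s : ℕ) (g : MvPowerSeries τ K), g ∈ J → Lo s g → Fixd U (ld s g) →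
      ∃ g0 : MvPowerSeries τ k, MvPowerSeries.map (σ := τ) (algebraMap k K) g0 ∈ J ∧
        Lo s (MvPowerSeries.map (σ := τ) (algebraMap k K) g0) ∧
        ld s (MvPowerSeries.map (σ := τ) (algebraMap k K) g0) = ld s g := by
    intro s g hg hgLo hgf
    -- the sequence
    have hstart : g ∈ J ∧ ∀ d : τ →₀ ℕ, d.degree < s + 1 → ∀ q ∈ Q, q.1 (coeff d g) = coeff d g := by
      refine ⟨hg, ?_⟩
      intro d hd q hq
      by_cases hds : d.degree < s
      · rw [hgLo d hds, map_zero]
      · have hds' : d.degree = s := by omega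
        have := hgf q.1 ⟨q, hq, rfl⟩ d
        rwa [ld_apply, if_pos hds'] at this
    have hseq : ∃ u : ℕ → MvPowerSeries τ K, u 0 = g ∧ ∀ n, (u n ∈ J ∧
        (∀ d : τ →₀ ℕ, d.degree < s + 1 + n → ∀ q ∈ Q, q.1 (coeff d (u n)) = coeff d (u n))) ∧
        Lo (s + 1 + n) (u (n + 1) - u n) := by
      let P : ℕ → MvPowerSeries τ K → Prop := fun n g => g ∈ J ∧
        (∀ d : τ →₀ ℕ, d.degree < s + 1 + n → ∀ q ∈ Q, q.1 (coeff d g) = coeff d g)
      have hstep' : ∀ n (x : {g // P n g}), ∃ y : {g // P (n + 1) g}, Lo (s + 1 + n) (y.1 - x.1) := by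
        rintro n ⟨x, hx1, hx2⟩
        obtain ⟨y, hy1, hy2, hy3⟩ := hstep (s + 1 + n) x hx1 hx2
        exact ⟨⟨y, hy1, hy2⟩, hy3⟩
      choose nx hnx using hstep'
      let u : (n : ℕ) → {g // P n g} := fun n => Nat.rec ⟨g, hstart⟩ (fun n x => nx n x) n
      exact ⟨fun n => (u n).1, rfl, fun n => ⟨(u n).2, hnx n (u n)⟩⟩
    obtain ⟨u, hu0, hu⟩ := hseq
    have hdiff : ∀ n m, n ≤ m → Lo (s + 1 + n) (u m - u n) := by
      intro n m hnm
      induction m, hnm using Nat.le_induction with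
      | base => rw [sub_self]; exact Lo.zero
      | succ m hnm ih =>
        have : u (m + 1) - u n = (u (m + 1) - u m) + (u m - u n) := by abel
        rw [this]
        exact ((hu m).2.mono (by omega)).add ih
    let v : MvPowerSeries τ K := ofCoeff fun d => coeff d (u d.degree)
    have hv : ∀ n, Lo n (v - u n) := by
      intro n d hd
      rw [map_sub]
      show coeff d (u d.degree) - coeff d (u n) = 0
      have h1 := hdiff d.degree n hd.le d (by omega)
      rw [map_sub] at h1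
      rw [← neg_sub, h1, neg_zero]
    have hvJ : v ∈ J := hcl v fun n => ⟨u n, (hu n).1.1, hv n⟩
    have hvf : ∀ d : τ →₀ ℕ, ∃ c : k, algebraMap k K c = coeff d v := by
      intro d
      refine hfix _ fun q hq => ?_
      show q.1 (coeff d (u d.degree)) = coeff d (u d.degree)
      exact (hu d.degree).1.2 d (by omega) q hq
    choose c hc' using hvf
    refine ⟨ofCoeff c, ?_⟩
    have hmap : MvPowerSeries.map (σ := τ) (algebraMap k K) (ofCoeff c) = v := by
      ext d
      rw [coeff_map, coeff_ofCoeff, hc']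
    rw [hmap]
    have hvg : Lo (s + 1) (v - g) := by
      intro d hd
      rw [map_sub]
      show coeff d (u d.degree) - coeff d g = 0
      have h1 := hdiff 0 d.degree (Nat.zero_le _) d (by omega)
      rwa [map_sub, hu0] at h1
    refine ⟨hvJ, ?_, ?_⟩
    · have : v = (v - g) + g := by abel
      rw [this]
      exact (hvg.mono (by omega)).add hgLo
    · ext d
      rw [ld_apply, ld_apply]
      split_ifs with hd
      · have := hvg d (by omega)
        rw [map_sub] at this
        exact sub_eq_zero.1 this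
      · rfl
  -- all leading forms are leading forms of elements of the extended ideal
  set M := Ideal.map (MvPowerSeries.map (σ := τ) (algebraMap k K))
      (Ideal.comap (MvPowerSeries.map (σ := τ) (algebraMap k K)) J) with hM
  have hMJ : M ≤ J := Ideal.map_comap_le
  have hA : ∀ (s : ℕ) (w : (τ →₀ ℕ) →₀ K), w ∈ lds s J → ∃ h ∈ M, Lo s h ∧ ld s h = w := by
    intro s w hw
    have h1 := gd1 U (lds s J) (hst s) w hw
    refine Submodule.span_induction (p := fun w _ => ∃ h ∈ M, Lo s h ∧ ld s h = w) ?_ ?_ ?_ ?_ h1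
    · rintro w ⟨⟨g, hg, hgLo, rfl⟩, hfx⟩
      obtain ⟨g0, hg0, hg1, hg2⟩ := hB s g hg hgLo hfx
      exact ⟨_, Ideal.mem_map_of_mem _ (Ideal.mem_comap.2 hg0), hg1, hg2⟩
    · exact ⟨0, M.zero_mem, Lo.zero, ld_zero s⟩
    · rintro x y _ _ ⟨h, hh, hh1, rfl⟩ ⟨h', hh', hh1', rfl⟩
      exact ⟨h + h', M.add_mem hh hh', hh1.add hh1', ld_add s h h'⟩
    · rintro c x _ ⟨h, hh, hh1, rfl⟩
      exact ⟨C c * h, M.mul_mem_left _ hh, hh1.mul_left _, ld_smul s c h⟩
  -- conclusion
  induction s with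
  | zero => exact ⟨0, M.zero_mem, Lo.of_zero _⟩
  | succ s ih =>
    obtain ⟨g, hg, hgLo⟩ := ih
    obtain ⟨h, hh, hhLo, hhl⟩ := hA s (ld s (f - g)) ⟨f - g, J.sub_mem hf (hMJ hg), hgLo, rfl⟩
    refine ⟨g + h, M.add_mem hg hh, ?_⟩
    have h1 : f - (g + h) = (f - g) - h := by abel
    rw [h1]
    refine Lo.succ (hgLo.sub hhLo) ?_
    rw [ld_sub, hhl, sub_self]

end H85.CH
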