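import Mathlib

/-!
# Orders of power series: composition and formal addition
-/

namespace H85.CH

open PowerSeries

theorem order_zero_of_unit {R : Type*} [CommRing R] {u : R⟦X⟧} (hu : constantCoeff u ≠ 0) :
    u.order = 0 := by
  have h1 : u.order ≤ 0 := by
    have h := PowerSeries.order_le (φ := u) 0
      (by rw [PowerSeries.coeff_zero_eq_constantCoeff_apply]; exact hu)
    simpa using h
  simpa using h1

theorem exists_unit_part {R : Type*} [CommRing R] {f : R⟦X⟧} (hf : f ≠ 0) :
    ∃ (n : ℕ) (u : R⟦X⟧), constantCoeff u ≠ 0 ∧ f = X ^ n * u ∧ f.order = n := by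
  have hfin : f.order ≠ ⊤ := fun h => hf (PowerSeries.order_eq_top.1 h)
  obtain ⟨u, hu⟩ := PowerSeries.X_pow_order_dvd (φ := f)
  refine ⟨f.order.toNat, u, ?_, hu, (ENat.natCast_toNat hfin).symm⟩
  intro h0
  obtain ⟨w, hw⟩ := PowerSeries.X_dvd_iff.2 h0
  have h1 : X ^ (f.order.toNat + 1) ∣ f := by
    refine ⟨w, ?_⟩
    rw [pow_succ, mul_assoc, ← hw, ← hu]
  have h2 := PowerSeries.X_pow_dvd_iff.1 h1 f.order.toNat (by omega)
  exact PowerSeries.coeff_order hf h2

theorem cc_subst_ne {R : Type*} [CommRing R] {g : R⟦X⟧} (hg : constantCoeff g = 0) (u : R⟦X⟧) :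
    constantCoeff (PowerSeries.subst g u : R⟦X⟧) = constantCoeff u := by
  have hs : PowerSeries.HasSubst g := PowerSeries.HasSubst.of_constantCoeff_zero' hg
  have h1 : u = (u - C (constantCoeff u)) + C (constantCoeff u) := by ring
  have h2 : constantCoeff (PowerSeries.subst g (u - C (constantCoeff u)) : R⟦X⟧) = 0 :=
    PowerSeries.constantCoeff_subst_eq_zero hg _ (by simp)
  have h3 : (PowerSeries.subst g (C (constantCoeff u)) : R⟦X⟧) = C (constantCoeff u) := by
    rw [← PowerSeries.coe_substAlgHom hs]
    exact (PowerSeries.substAlgHom hs).commutes (constantCoeff u)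
  conv_lhs => rw [h1]
  rw [PowerSeries.subst_add hs, map_add, h2, h3, zero_add, constantCoeff_C]

/-- the order of a composition -/
theorem order_subst {R : Type*} [CommRing R] [IsDomain R] (f g : R⟦X⟧)
    (hg : constantCoeff g = 0) :
    PowerSeries.order (PowerSeries.subst g f : R⟦X⟧) = f.order * g.order := by
  have hs : PowerSeries.HasSubst g := PowerSeries.HasSubst.of_constantCoeff_zero' hg
  have hg1 : g.order ≠ 0 := by
    intro h
    rw [← PowerSeries.coeff_zero_eq_constantCoeff_apply] at hg
    by_cases h0 : g = 0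
    · rw [h0, PowerSeries.order_zero] at h
      exact absurd h (by simp)
    · exact PowerSeries.coeff_order h0 (by rw [h]; exact hg)
  by_cases hf : f = 0
  · subst hf
    rw [← PowerSeries.coe_substAlgHom hs, map_zero, PowerSeries.order_zero, ENat.top_mul hg1]
  obtain ⟨n, u, hu, hfu, hfn⟩ := exists_unit_part hf
  have h1 : (PowerSeries.subst g f : R⟦X⟧) = g ^ n * PowerSeries.subst g u := by
    rw [hfu, PowerSeries.subst_mul hs, PowerSeries.subst_pow hs, PowerSeries.subst_X hs]
  have h2 : PowerSeries.order (PowerSeries.subst g u : R⟦X⟧) = 0 := by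
    apply order_zero_of_unit
    rw [cc_subst_ne hg]
    exact hu
  rw [h1, PowerSeries.order_mul, h2, add_zero, hfn]
  clear h1 h2 hfn hfu
  induction n with
  | zero => simp
  | succ n ih => rw [pow_succ, PowerSeries.order_mul, ih]; push_cast; ring

/-- the order of a formal sum -/
theorem order_F {R : Type*} [CommRing R] (F : FormalGroup R) (f g : R⟦X⟧)
    (hf : constantCoeff f = 0) (hg : constantCoeff g = 0) :
    min f.order g.order ≤ PowerSeries.order (MvPowerSeries.subst ![f, g] F.toPowerSeries : R⟦X⟧) := by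
  have hs : MvPowerSeries.HasSubst ![f, g] :=
    MvPowerSeries.hasSubst_of_constantCoeff_nilpotent fun s => by
      fin_cases s
      · exact PowerSeries.HasSubst.of_constantCoeff_zero' hf
      · exact PowerSeries.HasSubst.of_constantCoeff_zero' hg
  have h1 := MvPowerSeries.le_order_subst hs F.toPowerSeries
  have h2 : (1 : ℕ∞) ≤ F.toPowerSeries.order :=
    (MvPowerSeries.one_le_order_iff_constCoeff_eq_zero).2 F.zero_constantCoeff
  have h3 : min f.order g.order ≤ ⨅ i, MvPowerSeries.order (![f, g] i) := by
    refine le_iInf fun i => ?_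
    fin_cases i
    · rw [PowerSeries.order_eq_order]
      exact min_le_left _ _
    · rw [PowerSeries.order_eq_order, PowerSeries.order_eq_order]
      exact min_le_right _ _
  have h4 : PowerSeries.order (MvPowerSeries.subst ![f, g] F.toPowerSeries : R⟦X⟧) =
      MvPowerSeries.order (MvPowerSeries.subst ![f, g] F.toPowerSeries) :=
    PowerSeries.order_eq_order
  rw [h4]
  refine le_trans ?_ h1
  calc min f.order g.order = min f.order g.order * 1 := (mul_one _).symm
    _ ≤ _ := mul_le_mul' h3 h2

end H85.CH
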