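import Pool.Agent.H22.CG.Ring
import Pool.Agent.H85.CH.Ord

/-!
# Growth chapter, module G2a: orders of compositions and formal sums
-/

open PowerSeries

namespace H85.CH

open Pool.Agent.H13.CA Pool.Agent.H22.CG

theorem coeff_pl {R : Type*} [CommRing R] (F : FormalGroup R) {f g : R⟦X⟧} {a : ℕ} (ha : 1 ≤ a)
    (hf : X ^ a ∣ f) (hg : X ^ a ∣ g) {i : ℕ} (hi : i < 2 * a) :
    coeff i (pl F (σ := Unit) f g : R⟦X⟧) = coeff i f + coeff i g := by
  classical
  have hf0 : constantCoeff f = 0 := by
    rw [← PowerSeries.coeff_zero_eq_constantCoeff_apply]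
    exact PowerSeries.X_pow_dvd_iff.1 hf 0 (by omega)
  have hg0 : constantCoeff g = 0 := by
    rw [← PowerSeries.coeff_zero_eq_constantCoeff_apply]
    exact PowerSeries.X_pow_dvd_iff.1 hg 0 (by omega)
  have hs : MvPowerSeries.HasSubst ![f, g] :=
    hasSubst_pair (hs_zero hf0) (hs_zero hg0)
  have h1 : coeff i (pl F (σ := Unit) f g : R⟦X⟧) =
      finsum (fun d : Fin 2 →₀ ℕ => MvPowerSeries.coeff d F.toPowerSeries •
        MvPowerSeries.coeff (Finsupp.single () i) (d.prod fun s e => (![f, g] s) ^ e)) :=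
    MvPowerSeries.coeff_subst hs F.toPowerSeries (Finsupp.single () i)
  have hprod : ∀ d : Fin 2 →₀ ℕ, (d.prod fun s e => (![f, g] s) ^ e) = f ^ d 0 * g ^ d 1 := by
    intro d
    rw [Finsupp.prod_fintype _ _ (fun s => pow_zero _), Fin.prod_univ_two]
    rfl
  set s0 : Fin 2 →₀ ℕ := Finsupp.single 0 1 with hs0
  set s1 : Fin 2 →₀ ℕ := Finsupp.single 1 1 with hs1
  have hne : s0 ≠ s1 := by
    intro h
    have := DFunLike.congr_fun h 0
    simp [hs0, hs1] at this
  have hsupp : (Function.support fun d : Fin 2 →₀ ℕ => MvPowerSeries.coeff d F.toPowerSeries •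
        MvPowerSeries.coeff (Finsupp.single () i) (d.prod fun s e => (![f, g] s) ^ e)) ⊆
      (({s0, s1} : Finset (Fin 2 →₀ ℕ)) : Set (Fin 2 →₀ ℕ)) := by
    intro d hd
    by_contra hcon
    apply hd
    have hd0 : d ≠ s0 := fun h => hcon (by simp [h])
    have hd1 : d ≠ s1 := fun h => hcon (by simp [h])
    by_cases hz : d = 0
    · have : MvPowerSeries.coeff d F.toPowerSeries = 0 := by
        rw [hz, MvPowerSeries.coeff_zero_eq_constantCoeff_apply, F.zero_constantCoeff]
      show MvPowerSeries.coeff d F.toPowerSeries • _ = 0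
      rw [this, zero_smul]
    · have h2 : 2 ≤ d 0 + d 1 := by
        by_contra hlt
        have h3 : d 0 + d 1 ≤ 1 := by omega
        rcases Nat.eq_zero_or_pos (d 0) with h0 | h0
        · rcases Nat.eq_zero_or_pos (d 1) with h1' | h1'
          · apply hz
            ext j
            fin_cases j
            · exact h0
            · exact h1'
          · apply hd1
            ext j
            fin_cases j
            · simpa [hs1] using h0
            · show d 1 = s1 1
              simp [hs1]
              omega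
        · apply hd0
          ext j
          fin_cases j
          · show d 0 = s0 0
            simp [hs0]
            omega
          · show d 1 = s0 1
            simp [hs0]
            omega
      have h3 : (X : R⟦X⟧) ^ (2 * a) ∣ f ^ d 0 * g ^ d 1 := by
        have h4 : (X : R⟦X⟧) ^ (a * d 0) * X ^ (a * d 1) ∣ f ^ d 0 * g ^ d 1 := by
          rw [pow_mul, pow_mul]
          exact mul_dvd_mul (pow_dvd_pow_of_dvd hf _) (pow_dvd_pow_of_dvd hg _)
        refine dvd_trans ?_ h4
        rw [← pow_add]
        apply pow_dvd_pow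
        nlinarith
      have h5 : MvPowerSeries.coeff (Finsupp.single () i) (d.prod fun s e => (![f, g] s) ^ e) =
          0 := by
        rw [hprod]
        exact PowerSeries.X_pow_dvd_iff.1 h3 i hi
      show _ • MvPowerSeries.coeff (Finsupp.single () i) (d.prod fun s e => (![f, g] s) ^ e) = 0
      rw [h5, smul_zero]
  rw [h1, finsum_eq_sum_of_support_subset _ hsupp, Finset.sum_pair hne, hprod, hprod]
  have e0 : f ^ s0 0 * g ^ s0 1 = f := by
    simp [hs0]
  have e1 : f ^ s1 0 * g ^ s1 1 = g := by
    simp [hs1]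
  rw [e0, e1, F.lin_coeff_X, F.lin_coeff_Y, one_smul, one_smul]
  rfl

theorem order_comp {R : Type*} [CommRing R] [IsDomain R] {f g : R⟦X⟧} (hg : constantCoeff g = 0)
    {a b : ℕ} (hf : f.order = a) (hg' : g.order = b) :
    PowerSeries.order (PowerSeries.subst g f : R⟦X⟧) = (a * b : ℕ) ∧
      coeff (a * b) (PowerSeries.subst g f : R⟦X⟧) = coeff a f * coeff b g ^ a := by
  have hs : PowerSeries.HasSubst g := PowerSeries.HasSubst.of_constantCoeff_zero' hg
  refine ⟨?_, ?_⟩
  · rw [H85.CH.order_subst f g hg, hf, hg']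
    push_cast
    rfl
  have hf0 : f ≠ 0 := by
    rintro rfl
    rw [PowerSeries.order_zero] at hf
    exact absurd hf (by simp)
  have hg0 : g ≠ 0 := by
    rintro rfl
    rw [PowerSeries.order_zero] at hg'
    exact absurd hg' (by simp)
  obtain ⟨n, u, _, hfu, hfn⟩ := exists_unit_part hf0
  obtain ⟨m, v, _, hgv, hgm⟩ := exists_unit_part hg0
  have hna : n = a := by rw [hf] at hfn; exact_mod_cast hfn.symm
  have hmb : m = b := by rw [hg'] at hgm; exact_mod_cast hgm.symm
  subst hna hmb
  have hcoef : ∀ (j : ℕ) (w : R⟦X⟧), coeff j (X ^ j * w) = constantCoeff w := by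
    intro j w
    have := PowerSeries.coeff_X_pow_mul w j 0
    rw [zero_add, PowerSeries.coeff_zero_eq_constantCoeff_apply] at this
    exact this
  have h1 : (PowerSeries.subst g f : R⟦X⟧) = X ^ (n * m) * (v ^ n * PowerSeries.subst g u) := by
    have h2 : (PowerSeries.subst g f : R⟦X⟧) = g ^ n * PowerSeries.subst g u := by
      conv_lhs => rw [hfu]
      rw [PowerSeries.subst_mul hs, PowerSeries.subst_pow hs, PowerSeries.subst_X hs]
    have h3 : g ^ n = X ^ (n * m) * v ^ n := by
      conv_lhs => rw [hgv]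
      rw [mul_pow, ← pow_mul, mul_comm m n]
    rw [h2, h3, mul_assoc]
  have h4 : coeff n f = constantCoeff u := by rw [hfu]; exact hcoef n u
  have h5 : coeff m g = constantCoeff v := by
    conv_lhs => rw [hgv]
    exact hcoef m v
  have h6 : constantCoeff (v ^ n * PowerSeries.subst g u : R⟦X⟧) =
      constantCoeff v ^ n * constantCoeff u := by
    rw [map_mul, map_pow, cc_subst_ne hg]
  have h7 : coeff (n * m) (PowerSeries.subst g f : R⟦X⟧) =
      constantCoeff (v ^ n * PowerSeries.subst g u : R⟦X⟧) := by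
    conv_lhs => rw [h1]
    exact hcoef (n * m) _
  rw [h7, h6, h4, h5, mul_comm]

theorem order_pl {R : Type*} [CommRing R] (F : FormalGroup R) {f g : R⟦X⟧}
    (hf0 : constantCoeff f = 0) (hg0 : constantCoeff g = 0) {a : ℕ} (hf : f.order = a)
    (hg : (a : ℕ∞) < g.order) :
    PowerSeries.order (pl F (σ := Unit) f g : R⟦X⟧) = a := by
  have hfne : f ≠ 0 := by
    rintro rfl
    rw [PowerSeries.order_zero] at hf
    exact absurd hf (by simp)
  have hca : coeff a f ≠ 0 := by
    have h1 := PowerSeries.coeff_order hfne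
    rw [hf] at h1
    exact h1
  have ha : 1 ≤ a := by
    rcases Nat.eq_zero_or_pos a with h | h
    · subst h
      rw [PowerSeries.coeff_zero_eq_constantCoeff_apply] at hca
      exact absurd hf0 hca
    · exact h
  have hfd : X ^ a ∣ f := by
    rw [PowerSeries.X_pow_dvd_iff]
    intro m hm
    apply PowerSeries.coeff_of_lt_order
    rw [hf]
    exact_mod_cast hm
  have hgd : X ^ a ∣ g := by
    rw [PowerSeries.X_pow_dvd_iff]
    intro m hm
    apply PowerSeries.coeff_of_lt_order
    refine lt_trans ?_ hg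
    exact_mod_cast hm
  have hga : coeff a g = 0 := PowerSeries.coeff_of_lt_order _ hg
  have hle : (a : ℕ∞) ≤ PowerSeries.order (pl F (σ := Unit) f g : R⟦X⟧) := by
    refine le_trans ?_ (order_F F f g hf0 hg0)
    rw [hf, min_eq_left hg.le]
  refine le_antisymm ?_ hle
  apply PowerSeries.order_le
  rw [coeff_pl F ha hfd hgd (by omega), hga, add_zero]
  exact hca

theorem one_le_order {R : Type*} [CommRing R] {f : R⟦X⟧} (hf : constantCoeff f = 0) :
    1 ≤ f.order := by
  have : ((1 : ℕ) : ℕ∞) ≤ f.order := by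
    apply PowerSeries.nat_le_order
    intro i hi
    have : i = 0 := by omega
    subst this
    rw [PowerSeries.coeff_zero_eq_constantCoeff_apply]
    exact hf
  exact_mod_cast this

theorem noZeroDivisors {R : Type*} [CommRing R] [IsDomain R] (F : FormalGroup R) [F.IsComm] :
    NoZeroDivisors (EndF F) := by
  refine ⟨?_⟩
  intro f g h
  have h1 : (PowerSeries.subst g.s f.s : R⟦X⟧) = 0 := by
    rw [← EndF.mul_s, h, EndF.zero_s]
  have h2 := order_subst f.s g.s g.hom.1
  rw [h1] at h2
  have h3 : f.s.order = ⊤ ∨ g.s.order = ⊤ := by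
    by_contra hcon
    push Not at hcon
    obtain ⟨a, ha⟩ := ENat.ne_top_iff_exists.1 hcon.1
    obtain ⟨b, hb⟩ := ENat.ne_top_iff_exists.1 hcon.2
    rw [← ha, ← hb] at h2
    have h4 : PowerSeries.order (0 : R⟦X⟧) = ((a * b : ℕ) : ℕ∞) := by
      rw [h2]; push_cast; rfl
    rw [PowerSeries.order_zero] at h4
    exact absurd h4.symm (ENat.natCast_ne_top _)
  rcases h3 with h3 | h3
  · left
    apply EndF.ext
    rw [EndF.zero_s]
    exact PowerSeries.order_eq_top.1 h3
  · right
    apply EndF.ext
    rw [EndF.zero_s]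
    exact PowerSeries.order_eq_top.1 h3

end H85.CH
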