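import Pool.Agent.H85.CH.Deg

/-!
# The order of `(1 + y) ^ N - 1`
-/

namespace H85.CH

variable {p n : ℕ} {E : Type*} [Ring E] {O : E → ℕ∞}

theorem Ordr.sub_eq (hO : Ordr p n O) {f g : E} (h : O f < O g) : O (f - g) = O f := by
  rw [sub_eq_add_neg]
  exact hO.add_eq (by rwa [hO.neg])

theorem Ordr.le_mul_right (hO : Ordr p n O) (f g : E) : O f ≤ O (f * g) := by
  rw [hO.mul]
  exact le_mul_of_one_le_right' (hO.pos g)

theorem Ordr.le_mul_left (hO : Ordr p n O) (f g : E) : O g ≤ O (f * g) := by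
  rw [hO.mul]
  exact le_mul_of_one_le_left' (hO.pos f)

/-- natural numbers prime to `p` have order one -/
theorem Ordr.natCast (hO : Ordr p n O) [Nontrivial E] (hp : p.Prime) (hn : 1 ≤ n) {N : ℕ}
    (hN : ¬ p ∣ N) : O (N : E) = 1 := by
  apply le_antisymm _ (hO.pos _)
  by_contra hcon
  have hcon : 1 < O (N : E) := not_le.1 hcon
  have hcop : Nat.Coprime N p := ((Nat.Prime.coprime_iff_not_dvd hp).2 hN).symm
  have hb : (1 : ℤ) = (N : ℤ) * Nat.gcdA N p + (p : ℤ) * Nat.gcdB N p := by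
    have := Nat.gcd_eq_gcd_ab N p
    rw [hcop.gcd_eq_one] at this
    exact_mod_cast this
  have h1 : (1 : E) = (N : E) * ((Nat.gcdA N p : ℤ) : E) + (p : E) * ((Nat.gcdB N p : ℤ) : E) := by
    have := congrArg (fun z : ℤ => (z : E)) hb
    push_cast at this
    exact this
  have h2 : (1 : ℕ∞) < O ((N : E) * ((Nat.gcdA N p : ℤ) : E)) :=
    lt_of_lt_of_le hcon (hO.le_mul_right _ _)
  have h3 : (1 : ℕ∞) < O ((p : E) * ((Nat.gcdB N p : ℤ) : E)) := by
    refine lt_of_lt_of_le ?_ (hO.le_mul_right _ _)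
    rw [hO.pval]
    have : 1 < p ^ n := Nat.one_lt_pow (by omega) hp.one_lt
    exact_mod_cast this
  have h4 := hO.add ((N : E) * ((Nat.gcdA N p : ℤ) : E)) ((p : E) * ((Nat.gcdB N p : ℤ) : E))
  rw [← h1, hO.one] at h4
  exact absurd (lt_of_lt_of_le (lt_min h2 h3) h4) (lt_irrefl _)

/-- `(1 + y) ^ N = 1 + N y + y ^ 2 z` -/
theorem one_add_pow_eq (y : E) (N : ℕ) : ∃ z, (1 + y) ^ N = 1 + (N : E) * y + y * y * z ∧
    Commute y z := by
  induction N with
  | zero => exact ⟨0, by simp, Commute.zero_right y⟩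
  | succ N ih =>
    obtain ⟨z, hz, hc⟩ := ih
    refine ⟨N + z + y * z, ?_, ?_⟩
    · rw [pow_succ, hz]
      have hcN : (N : E) * y = y * N := (Nat.cast_commute N y).eq
      have h1 : (1 + (N : E) * y + y * y * z) * (1 + y) =
          1 + (N : E) * y + y * y * z + (y + (N : E) * y * y + y * y * (z * y)) := by
        noncomm_ring
      rw [h1, hc.eq.symm]
      push_cast
      have h2 : (N : E) * y * y = y * y * N := by
        rw [mul_assoc, (Nat.cast_commute N (y * y)).eq]
      rw [h2]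
      noncomm_ring
    · exact ((Nat.cast_commute N y).symm.add_right hc).add_right ((Commute.refl y).mul_right hc)

/-- `(1 + y) ^ p = 1 + p y + p y ^ 2 z + y ^ p` -/
theorem one_add_pow_p (hp : p.Prime) (y : E) :
    ∃ z, (1 + y) ^ p = 1 + (p : E) * y + (p : E) * (y * y * z) + y ^ p := by
  have h := (Commute.one_left y).add_pow_prime_eq' hp
  rw [one_pow] at h
  refine ⟨∑ k ∈ Finset.Ioo 0 (p - 1), y ^ (p - k - 2) * ((p.choose k / p : ℕ) : E), ?_⟩
  rw [h]
  have hp2 := hp.two_le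
  have h1 : ∑ k ∈ Finset.Ioo 0 p, (1 : E) ^ k * y ^ (p - k) * ((p.choose k / p : ℕ) : E) =
      y + y * y * ∑ k ∈ Finset.Ioo 0 (p - 1), y ^ (p - k - 2) * ((p.choose k / p : ℕ) : E) := by
    have h2 : Finset.Ioo 0 p = insert (p - 1) (Finset.Ioo 0 (p - 1)) := by
      ext k
      simp only [Finset.mem_Ioo, Finset.mem_insert]
      omega
    rw [h2, Finset.sum_insert (by simp)]
    have h3 : p.choose (p - 1) / p = 1 := by
      have : p.choose (p - 1) = p := by
        rw [Nat.choose_symm_of_eq_add (show p = (p - 1) + 1 by omega), Nat.choose_one_right]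
      rw [this, Nat.div_self hp.pos]
    have h4 : p - (p - 1) = 1 := by omega
    rw [h3, h4, one_pow, one_mul, pow_one, Nat.cast_one, mul_one, Finset.mul_sum]
    congr 1
    refine Finset.sum_congr rfl fun k hk => ?_
    rw [Finset.mem_Ioo] at hk
    have h5 : y ^ (p - k) = y * y * y ^ (p - k - 2) := by
      rw [← pow_two, ← pow_add]
      congr 1
      omega
    rw [one_pow, one_mul, h5, mul_assoc]
  rw [h1]
  noncomm_ring

theorem Ordr.one_add_pow_p (hO : Ordr p n O) [Nontrivial E] (hp : p.Prime) (hn : 1 ≤ n) {y : E}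
    (hy : (p : ℕ∞) ^ n < O y) (hy' : O y ≠ ⊤) :
    O ((1 + y) ^ p - 1) = (p : ℕ∞) ^ n * O y := by
  obtain ⟨z, hz⟩ := H85.CH.one_add_pow_p (E := E) hp y
  have h1 : (1 + y) ^ p - 1 = (p : E) * y + ((p : E) * (y * y * z) + y ^ p) := by
    rw [hz]; abel
  obtain ⟨a, ha⟩ := ENat.ne_top_iff_exists.1 hy'
  have hpn : 1 < p ^ n := Nat.one_lt_pow (by omega) hp.one_lt
  have hya : p ^ n < a := by rw [← ha] at hy; exact_mod_cast hy
  have hpy : O ((p : E) * y) = ((p ^ n * a : ℕ) : ℕ∞) := by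
    rw [hO.mul, hO.pval, ← ha]; push_cast; rfl
  have h2 : O ((p : E) * y) < O ((p : E) * (y * y * z)) := by
    rw [hpy, hO.mul, hO.pval]
    have h3 : ((a * a : ℕ) : ℕ∞) ≤ O (y * y * z) := by
      refine le_trans ?_ (hO.le_mul_right _ _)
      rw [hO.mul, ← ha]; push_cast; exact le_rfl
    calc ((p ^ n * a : ℕ) : ℕ∞) < ((p ^ n * (a * a) : ℕ) : ℕ∞) := by
          have : p ^ n * a < p ^ n * (a * a) := by
            apply Nat.mul_lt_mul_of_pos_left _ (by omega)
            nlinarith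
          exact_mod_cast this
      _ = (p : ℕ∞) ^ n * ((a * a : ℕ) : ℕ∞) := by push_cast; rfl
      _ ≤ (p : ℕ∞) ^ n * O (y * y * z) := mul_le_mul' le_rfl h3
  have h3 : O ((p : E) * y) < O (y ^ p) := by
    rw [hpy, hO.pow, ← ha]
    have h4 : p ^ n * a < a ^ p := by
      calc p ^ n * a < a * a := Nat.mul_lt_mul_of_pos_right hya (by omega)
        _ = a ^ 2 := (pow_two a).symm
        _ ≤ a ^ p := Nat.pow_le_pow_right (by omega) hp.two_le
    exact_mod_cast h4
  have h4 : O ((p : E) * y) < O ((p : E) * (y * y * z) + y ^ p) :=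
    lt_of_lt_of_le (lt_min h2 h3) (hO.add _ _)
  rw [h1, hO.add_eq h4, hO.mul, hO.pval]

/-- the order of `(1 + y) ^ N - 1` is `q ^ v` times the order of `y`, for some `v` -/
theorem Ordr.one_add_pow (hO : Ordr p n O) [Nontrivial E] (hp : p.Prime) (hn : 1 ≤ n) {y : E}
    (hy : (p : ℕ∞) ^ n < O y) (hy' : O y ≠ ⊤) {N : ℕ} (hN : 1 ≤ N) :
    ∃ v : ℕ, O ((1 + y) ^ N - 1) = ((p : ℕ∞) ^ n) ^ v * O y := by
  induction hN' : N using Nat.strong_induction_on generalizing N y with
  | _ N ih =>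
    have hpn : 1 < p ^ n := Nat.one_lt_pow (by omega) hp.one_lt
    by_cases hpN : p ∣ N
    · obtain ⟨N1, rfl⟩ := hpN
      have hN1 : 1 ≤ N1 := by
        rcases Nat.eq_zero_or_pos N1 with h | h
        · subst h; omega
        · exact h
      have hlt : N1 < p * N1 := by
        have := hp.two_le
        nlinarith
      have h1 := hO.one_add_pow_p hp hn hy hy'
      set y' := (1 + y) ^ p - 1 with hy1
      have h2 : (p : ℕ∞) ^ n < O y' := by
        rw [h1]
        exact lt_of_lt_of_le hy (le_mul_of_one_le_left' (by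
          have : 1 ≤ p ^ n := hpn.le
          exact_mod_cast this))
      have h3 : O y' ≠ ⊤ := by
        rw [h1]
        obtain ⟨a, ha⟩ := ENat.ne_top_iff_exists.1 hy'
        rw [← ha]
        have : (p : ℕ∞) ^ n * (a : ℕ∞) = ((p ^ n * a : ℕ) : ℕ∞) := by push_cast; rfl
        rw [this]
        exact ENat.natCast_ne_top _
      obtain ⟨v, hv⟩ := ih N1 (by omega) h2 h3 hN1 rfl
      refine ⟨v + 1, ?_⟩
      have h4 : (1 + y) ^ (p * N1) = (1 + y') ^ N1 := by
        rw [pow_mul, hy1]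
        congr 1
        abel
      subst hN'
      rw [h4, hv, h1, pow_succ, mul_assoc]
    · subst hN'
      obtain ⟨z, hz, _⟩ := one_add_pow_eq y N
      refine ⟨0, ?_⟩
      have h1 : (1 + y) ^ N - 1 = (N : E) * y + y * y * z := by rw [hz]; abel
      obtain ⟨a, ha⟩ := ENat.ne_top_iff_exists.1 hy'
      have hya : p ^ n < a := by rw [← ha] at hy; exact_mod_cast hy
      have h2 : O ((N : E) * y) = O y := by rw [hO.mul, hO.natCast hp hn hpN, one_mul]
      have h3 : O ((N : E) * y) < O (y * y * z) := by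
        rw [h2]
        refine lt_of_lt_of_le ?_ (hO.le_mul_right _ _)
        rw [hO.mul, ← ha]
        have : a < a * a := by nlinarith
        exact_mod_cast this
      rw [h1, hO.add_eq h3, h2, pow_zero, one_mul]

end H85.CH
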