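import Pool.Agent.H22.CG.Fld
import Pool.Agent.H85.CH.Bin

/-!
# Growth chapter, module G7, part 1: the rules for orders of endomorphisms
-/

open PowerSeries

namespace H85.CH

open Pool.Agent.H13.CA Pool.Agent.H22.CG

/-- coefficients of a formal sum, general form -/
theorem coeff_pl' {R : Type*} [CommRing R] (F : FormalGroup R) {f g : R⟦X⟧} {a b : ℕ}
    (hb : 1 ≤ b) (ha : 1 ≤ a) (hf : X ^ b ∣ f) (hg : X ^ a ∣ g) {i : ℕ} (hi : i < a + b) :
    coeff i (pl F (σ := Unit) f g : R⟦X⟧) = coeff i f + coeff i g := by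
  classical
  have hf0 : constantCoeff f = 0 := by
    rw [← PowerSeries.coeff_zero_eq_constantCoeff_apply]
    exact PowerSeries.X_pow_dvd_iff.1 hf 0 (by omega)
  have hg0 : constantCoeff g = 0 := by
    rw [← PowerSeries.coeff_zero_eq_constantCoeff_apply]
    exact PowerSeries.X_pow_dvd_iff.1 hg 0 (by omega)
  have hs : MvPowerSeries.HasSubst ![f, g] :=
    hasSubst_pair (hs_zero hf0) (hs_zero hg0)
  -- pure powers have coefficient zero in F
  have hpure0 : ∀ e : ℕ, e ≠ 1 →
      MvPowerSeries.coeff (Finsupp.single (0 : Fin 2) e) F.toPowerSeries = 0 := by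
    intro e he
    have h1 : coeff e F.Xzero = MvPowerSeries.coeff (Finsupp.single (0 : Fin 2) e)
        F.toPowerSeries := by
      have h2 : coeff e F.Xzero = finsum (fun d : Fin 2 →₀ ℕ =>
          MvPowerSeries.coeff d F.toPowerSeries • MvPowerSeries.coeff (Finsupp.single () e)
            (d.prod fun s e => (![(PowerSeries.X : R⟦X⟧), 0] s) ^ e)) :=
        MvPowerSeries.coeff_subst MvPowerSeries.HasSubst.X_zero F.toPowerSeries
          (Finsupp.single () e)
      rw [h2, finsum_eq_single _ (Finsupp.single (0 : Fin 2) e)]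
      · rw [Finsupp.prod_fintype _ _ (fun s => pow_zero _), Fin.prod_univ_two]
        have h3 : MvPowerSeries.coeff (Finsupp.single () e)
            ((![(PowerSeries.X : R⟦X⟧), 0] 0) ^ (Finsupp.single (0 : Fin 2) e) 0 *
            (![(PowerSeries.X : R⟦X⟧), 0] 1) ^ (Finsupp.single (0 : Fin 2) e) 1) = 1 := by
          have h4 : (![(PowerSeries.X : R⟦X⟧), 0] 0) ^ (Finsupp.single (0 : Fin 2) e) 0 *
            (![(PowerSeries.X : R⟦X⟧), 0] 1) ^ (Finsupp.single (0 : Fin 2) e) 1 =
              (PowerSeries.X : R⟦X⟧) ^ e := by simp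
          rw [h4]
          have h5 := PowerSeries.coeff_X_pow (R := R) e e
          rw [if_pos rfl] at h5
          exact h5
        rw [h3, smul_eq_mul, mul_one]
      · intro d hd
        rw [Finsupp.prod_fintype _ _ (fun s => pow_zero _), Fin.prod_univ_two]
        show _ • MvPowerSeries.coeff (Finsupp.single () e)
          ((PowerSeries.X : R⟦X⟧) ^ d 0 * (0 : R⟦X⟧) ^ d 1) = 0
        by_cases h1 : d 1 = 0
        · have h0 : d 0 ≠ e := by
            intro h0
            apply hd
            ext j
            fin_cases j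
            · simpa using h0
            · simpa using h1
          rw [h1, pow_zero, mul_one]
          have h5 := PowerSeries.coeff_X_pow (R := R) e (d 0)
          rw [if_neg (Ne.symm h0)] at h5
          have h6 : MvPowerSeries.coeff (Finsupp.single () e) ((PowerSeries.X : R⟦X⟧) ^ d 0) = 0 :=
            h5
          rw [h6, smul_zero]
        · rw [zero_pow h1, mul_zero, map_zero, smul_zero]
    rw [← h1, F.Xzero_eq_X, PowerSeries.coeff_X, if_neg he]
  have hpure1 : ∀ e : ℕ, e ≠ 1 →
      MvPowerSeries.coeff (Finsupp.single (1 : Fin 2) e) F.toPowerSeries = 0 := by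
    intro e he
    have h1 : coeff e F.zeroX = MvPowerSeries.coeff (Finsupp.single (1 : Fin 2) e)
        F.toPowerSeries := by
      have h2 : coeff e F.zeroX = finsum (fun d : Fin 2 →₀ ℕ =>
          MvPowerSeries.coeff d F.toPowerSeries • MvPowerSeries.coeff (Finsupp.single () e)
            (d.prod fun s e => (![0, (PowerSeries.X : R⟦X⟧)] s) ^ e)) :=
        MvPowerSeries.coeff_subst MvPowerSeries.HasSubst.zero_X F.toPowerSeries
          (Finsupp.single () e)
      rw [h2, finsum_eq_single _ (Finsupp.single (1 : Fin 2) e)]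
      · rw [Finsupp.prod_fintype _ _ (fun s => pow_zero _), Fin.prod_univ_two]
        have h3 : MvPowerSeries.coeff (Finsupp.single () e)
            ((![0, (PowerSeries.X : R⟦X⟧)] 0) ^ (Finsupp.single (1 : Fin 2) e) 0 *
            (![0, (PowerSeries.X : R⟦X⟧)] 1) ^ (Finsupp.single (1 : Fin 2) e) 1) = 1 := by
          have h4 : (![0, (PowerSeries.X : R⟦X⟧)] 0) ^ (Finsupp.single (1 : Fin 2) e) 0 *
            (![0, (PowerSeries.X : R⟦X⟧)] 1) ^ (Finsupp.single (1 : Fin 2) e) 1 =
              (PowerSeries.X : R⟦X⟧) ^ e := by simp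
          rw [h4]
          have h5 := PowerSeries.coeff_X_pow (R := R) e e
          rw [if_pos rfl] at h5
          exact h5
        rw [h3, smul_eq_mul, mul_one]
      · intro d hd
        rw [Finsupp.prod_fintype _ _ (fun s => pow_zero _), Fin.prod_univ_two]
        show _ • MvPowerSeries.coeff (Finsupp.single () e)
          ((0 : R⟦X⟧) ^ d 0 * (PowerSeries.X : R⟦X⟧) ^ d 1) = 0
        by_cases h1 : d 0 = 0
        · have h0 : d 1 ≠ e := by
            intro h0
            apply hd
            ext j
            fin_cases j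
            · simpa using h1
            · simpa using h0
          rw [h1, pow_zero, one_mul]
          have h5 := PowerSeries.coeff_X_pow (R := R) e (d 1)
          rw [if_neg (Ne.symm h0)] at h5
          have h6 : MvPowerSeries.coeff (Finsupp.single () e) ((PowerSeries.X : R⟦X⟧) ^ d 1) = 0 :=
            h5
          rw [h6, smul_zero]
        · rw [zero_pow h1, zero_mul, map_zero, smul_zero]
    rw [← h1, F.zeroX_eq_X, PowerSeries.coeff_X, if_neg he]
  have h1 : coeff i (pl F (σ := Unit) f g : R⟦X⟧) =
      finsum (fun d : Fin 2 →₀ ℕ => MvPowerSeries.coeff d F.toPowerSeries •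
        MvPowerSeries.coeff (Finsupp.single () i) (d.prod fun s e => (![f, g] s) ^ e)) :=
    MvPowerSeries.coeff_subst hs F.toPowerSeries (Finsupp.single () i)
  have hprod : ∀ d : Fin 2 →₀ ℕ, (d.prod fun s e => (![f, g] s) ^ e) = f ^ d 0 * g ^ d 1 := by
    intro d
    rw [Finsupp.prod_fintype _ _ (fun s => pow_zero _), Fin.prod_univ_two]
    rfl
  set s0 : Fin 2 →₀ ℕ := Finsupp.single 0 1 with hs0
  set s1 : Fin 2 →₀ ℕ := Finsupp.single 1 1 with hs1
  have hne : s0 ≠ s1 := by
    intro h
    have := DFunLike.congr_fun h 0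
    simp [hs0, hs1] at this
  have hsupp : (Function.support fun d : Fin 2 →₀ ℕ => MvPowerSeries.coeff d F.toPowerSeries •
        MvPowerSeries.coeff (Finsupp.single () i) (d.prod fun s e => (![f, g] s) ^ e)) ⊆
      (({s0, s1} : Finset (Fin 2 →₀ ℕ)) : Set (Fin 2 →₀ ℕ)) := by
    intro d hd
    by_contra hcon
    apply hd
    have hd0 : d ≠ s0 := fun h => hcon (by simp [h])
    have hd1 : d ≠ s1 := fun h => hcon (by simp [h])
    show MvPowerSeries.coeff d F.toPowerSeries •
      MvPowerSeries.coeff (Finsupp.single () i) (d.prod fun s e => (![f, g] s) ^ e) = 0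
    rcases Nat.eq_zero_or_pos (d 1) with h1' | h1'
    · have h2 : d = Finsupp.single 0 (d 0) := by
        ext j
        fin_cases j
        · simp
        · simpa using h1'
      have h3 : d 0 ≠ 1 := by
        intro h3
        rw [h3] at h2
        exact hd0 h2
      have h4 := hpure0 (d 0) h3
      rw [← h2] at h4
      rw [h4, zero_smul]
    · rcases Nat.eq_zero_or_pos (d 0) with h0' | h0'
      · have h2 : d = Finsupp.single 1 (d 1) := by
          ext j
          fin_cases j
          · simpa using h0'
          · simp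
        have h3 : d 1 ≠ 1 := by
          intro h3
          rw [h3] at h2
          exact hd1 h2
        have h4 := hpure1 (d 1) h3
        rw [← h2] at h4
        rw [h4, zero_smul]
      · have h3 : (X : R⟦X⟧) ^ (a + b) ∣ f ^ d 0 * g ^ d 1 := by
          rw [add_comm a b, pow_add]
          exact mul_dvd_mul (dvd_trans hf (dvd_pow_self f (by omega)))
            (dvd_trans hg (dvd_pow_self g (by omega)))
        have h5 : MvPowerSeries.coeff (Finsupp.single () i)
            (d.prod fun s e => (![f, g] s) ^ e) = 0 := by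
          rw [hprod]
          exact PowerSeries.X_pow_dvd_iff.1 h3 i hi
        rw [h5, smul_zero]
  rw [h1, finsum_eq_sum_of_support_subset _ hsupp, Finset.sum_pair hne, hprod, hprod]
  have e0 : f ^ s0 0 * g ^ s0 1 = f := by
    simp [hs0]
  have e1 : f ^ s1 0 * g ^ s1 1 = g := by
    simp [hs1]
  rw [e0, e1, F.lin_coeff_X, F.lin_coeff_Y, one_smul, one_smul]
  rfl

/-- the order of an endomorphism -/
noncomputable def od {R : Type*} [CommRing R] {F : FormalGroup R} (f : EndF F) : ℕ∞ := f.s.order

theorem order_eq_of {R : Type*} [CommRing R] {f : R⟦X⟧} {a : ℕ} (h : ∀ i, i < a → coeff i f = 0)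
    (h' : coeff a f ≠ 0) : f.order = a :=
  le_antisymm (PowerSeries.order_le _ h') (PowerSeries.nat_le_order _ _ h)

/-- the rules for the order of endomorphisms of a formal group law over a domain -/
theorem ordr {R : Type*} [CommRing R] [IsDomain R] (F : FormalGroup R) [F.IsComm] {p h : ℕ}
    (hlow : ∀ i, i < p ^ h → coeff i (mulSer F p) = 0)
    (hv : coeff (p ^ h) (mulSer F p) ≠ 0) : Ordr p h (od (F := F)) := by
  have hmul : ∀ f g : EndF F, od (f * g) = od f * od g := by
    intro f g
    show (f * g).s.order = f.s.order * g.s.order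
    rw [EndF.mul_s]
    exact order_subst f.s g.s g.hom.1
  have hone : od (1 : EndF F) = 1 := by
    show (1 : EndF F).s.order = 1
    rw [EndF.one_s, PowerSeries.order_X]
  have hpos : ∀ f : EndF F, 1 ≤ od f := fun f => one_le_order f.hom.1
  have hneg1 : od (-1 : EndF F) = 1 := by
    have h1 := hmul (-1) (-1)
    rw [neg_one_mul, neg_neg, hone] at h1
    have h2 := hpos (-1 : EndF F)
    refine le_antisymm ?_ h2
    calc od (-1 : EndF F) ≤ od (-1 : EndF F) * od (-1 : EndF F) := le_mul_of_one_le_left' h2
      _ = 1 := h1.symm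
  refine ⟨hmul, ?_, ?_, hpos, ?_, ?_⟩
  · intro f g
    show min f.s.order g.s.order ≤ (f + g).s.order
    rw [EndF.add_s]
    exact order_F F f.s g.s f.hom.1 g.hom.1
  · intro f
    rw [← neg_one_mul, hmul, hneg1, one_mul]
  · intro f hf
    apply EndF.ext
    rw [EndF.zero_s]
    exact PowerSeries.order_eq_top.1 hf
  · show (p : EndF F).s.order = (p : ℕ∞) ^ h
    rw [EndF.natCast_s, order_eq_of hlow hv]
    push_cast
    rfl

instance nontrivial_EndF {R : Type*} [CommRing R] [Nontrivial R] (F : FormalGroup R) [F.IsComm] :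
    Nontrivial (EndF F) := by
  refine ⟨⟨1, 0, ?_⟩⟩
  intro h
  have h1 := congrArg EndF.s h
  rw [EndF.one_s, EndF.zero_s] at h1
  exact PowerSeries.X_ne_zero h1

/-- `x ^ r` divides a difference if and only if the coefficients agree -/
theorem dvd_sub_of {R : Type*} [CommRing R] [IsDomain R] (F : FormalGroup R) [F.IsComm]
    {f g : EndF F} {r : ℕ} (h : ∀ i, i < r → coeff i f.s = coeff i g.s) :
    ((r : ℕ) : ℕ∞) ≤ od (f - g) := by
  by_contra hcon
  have hcon : od (f - g) < (r : ℕ∞) := not_le.1 hcon
  have hne : od (f - g) ≠ ⊤ := ne_top_of_lt hcon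
  obtain ⟨a, ha⟩ := ENat.ne_top_iff_exists.1 hne
  have har : a < r := by rw [← ha] at hcon; exact_mod_cast hcon
  set δ := f - g with hδ
  have hδ' : δ.s.order = (a : ℕ∞) := ha.symm
  have h1 : f = g + δ := by rw [hδ]; abel
  have ha1 : 1 ≤ a := by
    have := one_le_order δ.hom.1
    rw [hδ'] at this
    exact_mod_cast this
  have hδd : X ^ a ∣ δ.s := by
    rw [PowerSeries.X_pow_dvd_iff]
    intro m hm
    apply PowerSeries.coeff_of_lt_order
    rw [hδ']
    exact_mod_cast hm
  have hgd : X ^ 1 ∣ g.s := by
    rw [pow_one, PowerSeries.X_dvd_iff]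
    exact g.hom.1
  have hca : coeff a δ.s ≠ 0 := by
    have hne' : δ.s ≠ 0 := by
      intro h0
      rw [h0, PowerSeries.order_zero] at hδ'
      exact absurd hδ' (by simp)
    have h2 := PowerSeries.coeff_order hne'
    rw [hδ'] at h2
    exact h2
  have h2 : coeff a f.s = coeff a g.s + coeff a δ.s := by
    rw [h1, EndF.add_s]
    exact coeff_pl' F le_rfl ha1 hgd hδd (by omega)
  rw [h a har] at h2
  exact hca (by simpa using h2)

end H85.CH
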