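import Mathlib

/-!
# A non-constant power series is fixed by finitely many automorphisms of `k[[X]]`
-/

namespace H85.CH

open PowerSeries

/-- an algebra automorphism maps `X` into the maximal ideal -/
theorem X_dvd_aut {k : Type*} [Field k] (φ : k⟦X⟧ ≃ₐ[k] k⟦X⟧) : (X : k⟦X⟧) ∣ φ X := by
  rw [PowerSeries.X_dvd_iff]
  by_contra h
  have h1 : IsUnit (φ (X : k⟦X⟧)) := by
    rw [PowerSeries.isUnit_iff_constantCoeff]
    exact isUnit_iff_ne_zero.2 h
  have h2 : IsUnit (X : k⟦X⟧) := by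
    have := h1.map φ.symm
    simpa using this
  exact PowerSeries.X_prime.not_isUnit h2

theorem pow_dvd_aut {k : Type*} [Field k] (φ : k⟦X⟧ ≃ₐ[k] k⟦X⟧) (N : ℕ) (g : k⟦X⟧)
    (h : X ^ N ∣ g) : X ^ N ∣ φ g := by
  obtain ⟨r, rfl⟩ := h
  rw [map_mul, map_pow]
  exact Dvd.dvd.mul_right (pow_dvd_pow_of_dvd (X_dvd_aut φ) N) _

theorem eq_zero_of_pow_dvd {k : Type*} [Field k] (g : k⟦X⟧) (h : ∀ N : ℕ, X ^ N ∣ g) : g = 0 := by
  ext n
  rw [map_zero]
  exact (PowerSeries.X_pow_dvd_iff.1 (h (n + 1))) n (by omega)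

/-- an automorphism is determined by the image of `X` -/
theorem aut_ext {k : Type*} [Field k] (φ ψ : k⟦X⟧ ≃ₐ[k] k⟦X⟧) (h : φ X = ψ X) : φ = ψ := by
  ext1 g
  rw [← sub_eq_zero]
  apply eq_zero_of_pow_dvd
  intro N
  have h1 : X ^ N ∣ g - (g.trunc N : k⟦X⟧) := by
    rw [PowerSeries.X_pow_dvd_iff]
    intro m hm
    rw [map_sub, Polynomial.coeff_coe, PowerSeries.coeff_trunc, if_pos hm, sub_self]
  have h2 : ∀ p : Polynomial k, φ (p : k⟦X⟧) = ψ (p : k⟦X⟧) := by
    intro p
    induction p using Polynomial.induction_on' with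
    | add p q hp hq => rw [Polynomial.coe_add, map_add, map_add, hp, hq]
    | monomial n a =>
      have h3 : ((Polynomial.monomial n a : Polynomial k) : k⟦X⟧) =
          algebraMap k k⟦X⟧ a * X ^ n := by
        rw [Polynomial.coe_monomial, PowerSeries.monomial_eq_mk]
        ext m
        rw [PowerSeries.algebraMap_apply, Algebra.algebraMap_self_apply, PowerSeries.coeff_C_mul,
          PowerSeries.coeff_X_pow, PowerSeries.coeff_mk]
        split_ifs <;> simp
      rw [h3, map_mul, map_mul, map_pow, map_pow, h, φ.commutes, ψ.commutes]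
  have h5 : φ g - ψ g = φ (g - (g.trunc N : k⟦X⟧)) - ψ (g - (g.trunc N : k⟦X⟧)) := by
    rw [map_sub, map_sub, h2]
    abel
  rw [h5]
  exact dvd_sub (pow_dvd_aut φ N _ h1) (pow_dvd_aut ψ N _ h1)

/-- expansion in `f` modulo a power of `X` -/
theorem exists_expansion {k : Type*} [Field k] (f : k⟦X⟧) (n : ℕ) (hn : 0 < n)
    (u : k⟦X⟧) (hu : constantCoeff u ≠ 0) (hf : f = X ^ n * u) (g : k⟦X⟧) (B : ℕ) :
    ∃ a : Fin n → k⟦X⟧, (∀ i, a i ∈ Algebra.adjoin k {f}) ∧ X ^ B ∣ g - ∑ i, a i * X ^ (i : ℕ) := by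
  classical
  induction B with
  | zero => exact ⟨fun _ => 0, fun _ => Subalgebra.zero_mem _, by simp⟩
  | succ B ih =>
    obtain ⟨a, ha, r, hr⟩ := ih
    set c : k := constantCoeff r with hc
    set d : k := constantCoeff u with hd
    have hlt : B % n < n := Nat.mod_lt _ hn
    set i0 : Fin n := ⟨B % n, hlt⟩ with hi0
    refine ⟨Function.update a i0 (a i0 + C (c * (d ^ (B / n))⁻¹) * f ^ (B / n)), ?_, ?_⟩
    · intro i
      by_cases hi : i = i0
      · subst hi
        rw [Function.update_self]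
        refine Subalgebra.add_mem _ (ha _) (Subalgebra.mul_mem _ ?_ (Subalgebra.pow_mem _ ?_ _))
        · exact Subalgebra.algebraMap_mem _ _
        · exact Algebra.subset_adjoin rfl
      · rw [Function.update_of_ne hi]
        exact ha i
    · have h1 : ∑ i, Function.update a i0 (a i0 + C (c * (d ^ (B / n))⁻¹) * f ^ (B / n)) i *
          X ^ (i : ℕ) = ∑ i, a i * X ^ (i : ℕ) + C (c * (d ^ (B / n))⁻¹) * f ^ (B / n) *
            X ^ (B % n) := by
        rw [← Finset.add_sum_erase _ _ (Finset.mem_univ i0),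
          ← Finset.add_sum_erase _ (fun i => a i * X ^ (i : ℕ)) (Finset.mem_univ i0)]
        rw [Function.update_self]
        have h2 : ∑ x ∈ Finset.univ.erase i0, Function.update a i0
            (a i0 + C (c * (d ^ (B / n))⁻¹) * f ^ (B / n)) x * X ^ (x : ℕ) =
            ∑ x ∈ Finset.univ.erase i0, a x * X ^ (x : ℕ) := by
          refine Finset.sum_congr rfl fun x hx => ?_
          rw [Function.update_of_ne (Finset.ne_of_mem_erase hx)]
        rw [h2]
        show (a i0 + C (c * (d ^ (B / n))⁻¹) * f ^ (B / n)) * X ^ (B % n) + _ = _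
        ring
      rw [h1, ← sub_sub, hr]
      have h3 : f ^ (B / n) * X ^ (B % n) = X ^ B * u ^ (B / n) := by
        rw [hf, mul_pow, ← pow_mul]
        calc X ^ (n * (B / n)) * u ^ (B / n) * X ^ (B % n)
            = X ^ (n * (B / n)) * X ^ (B % n) * u ^ (B / n) := by ring
          _ = X ^ B * u ^ (B / n) := by rw [← pow_add, Nat.div_add_mod]
      have h4 : X ^ B * r - C (c * (d ^ (B / n))⁻¹) * f ^ (B / n) * X ^ (B % n) =
          X ^ B * (r - C (c * (d ^ (B / n))⁻¹) * u ^ (B / n)) := by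
        rw [mul_assoc, h3]; ring
      rw [h4, pow_succ]
      refine mul_dvd_mul_left _ ?_
      rw [PowerSeries.X_dvd_iff, map_sub, map_mul, map_pow, constantCoeff_C, ← hd, ← hc]
      field_simp
      ring

/-- a non-constant power series is fixed by finitely many automorphisms -/
theorem fin_aut {k : Type*} [Field k] (f : k⟦X⟧) (hf0 : f ≠ 0) (hfc : constantCoeff f = 0)
    (S : Set (k⟦X⟧ ≃ₐ[k] k⟦X⟧)) (hS : ∀ φ ∈ S, φ f = f) : S.Finite := by
  classical
  by_contra hinf
  have hinf : S.Infinite := hinf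
  -- shape of f
  obtain ⟨n, u, hu, hf⟩ : ∃ (n : ℕ) (u : k⟦X⟧), constantCoeff u ≠ 0 ∧ f = X ^ n * u := by
    have hfin : f.order ≠ ⊤ := fun h => hf0 (PowerSeries.order_eq_top.1 h)
    obtain ⟨u, hu⟩ := PowerSeries.X_pow_order_dvd (φ := f)
    refine ⟨f.order.toNat, u, ?_, hu⟩
    intro h0
    obtain ⟨w, hw⟩ := PowerSeries.X_dvd_iff.2 h0
    have h1 : X ^ (f.order.toNat + 1) ∣ f := by
      refine ⟨w, ?_⟩
      rw [pow_succ, mul_assoc, ← hw, ← hu]
    have h2 := PowerSeries.X_pow_dvd_iff.1 h1 f.order.toNat (by omega)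
    exact PowerSeries.coeff_order hf0 h2
  have hn : 0 < n := by
    rcases Nat.eq_zero_or_pos n with h | h
    · exfalso
      subst h
      rw [hf, pow_zero, one_mul] at hfc
      exact hu hfc
    · exact h
  -- n + 1 distinct points
  let e := hinf.natEmbedding
  let x : Fin (n + 1) → k⟦X⟧ := fun j => (e j).1 X
  have hxinj : Function.Injective x := by
    intro i j hij
    have h1 : (e i).1 = (e j).1 := aut_ext _ _ hij
    have h2 : e i = e j := Subtype.ext h1
    exact Fin.ext (e.injective h2)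
  have hdet : (Matrix.vandermonde x).det ≠ 0 := Matrix.det_vandermonde_ne_zero_iff.2 hxinj
  apply hdet
  apply eq_zero_of_pow_dvd
  intro B
  obtain ⟨a, ha, hB⟩ := exists_expansion f n hn u hu hf (X ^ n) B
  have hafix : ∀ φ ∈ S, ∀ i, φ (a i) = a i := by
    intro φ hφ i
    refine Algebra.adjoin_induction (p := fun y _ => φ y = y) ?_ ?_ ?_ ?_ (ha i)
    · rintro y rfl
      exact hS φ hφ
    · intro r
      exact φ.commutes r
    · intro y z _ _ hy hz
      rw [map_add, hy, hz]
    · intro y z _ _ hy hz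
      rw [map_mul, hy, hz]
  let c : Fin (n + 1) → k⟦X⟧ := Fin.snoc (fun i => - a i) 1
  have hV : ∀ j, X ^ B ∣ (Matrix.vandermonde x).mulVec c j := by
    intro j
    have h1 : (Matrix.vandermonde x).mulVec c j = (e j).1 (X ^ n - ∑ i, a i * X ^ (i : ℕ)) := by
      rw [map_sub, map_pow, map_sum]
      simp only [map_mul, map_pow, hafix _ (e j).2]
      rw [Matrix.mulVec, dotProduct, Fin.sum_univ_castSucc]
      simp only [Matrix.vandermonde_apply, c, Fin.snoc_castSucc, Fin.snoc_last, mul_one,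
        Fin.val_castSucc, Fin.val_last]
      show ∑ i : Fin n, x j ^ (i : ℕ) * -a i + x j ^ n = x j ^ n - ∑ i, a i * x j ^ (i : ℕ)
      rw [sub_eq_add_neg, ← Finset.sum_neg_distrib, add_comm]
      congr 1
      refine Finset.sum_congr rfl fun i _ => ?_
      ring
    rw [h1]
    exact pow_dvd_aut _ _ _ hB
  have h2 : (Matrix.vandermonde x).det = ((Matrix.vandermonde x).adjugate.mulVec
      ((Matrix.vandermonde x).mulVec c)) (Fin.last n) := by
    rw [Matrix.mulVec_mulVec, Matrix.adjugate_mul, Matrix.smul_mulVec, Matrix.one_mulVec,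
      Pi.smul_apply]
    simp [c]
  rw [h2, Matrix.mulVec, dotProduct]
  exact Finset.dvd_sum fun j _ => Dvd.dvd.mul_left (hV j) _

end H85.CH
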