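import Mathlib

/-!
# The degree lemma (chapter END of CH-ALL), pure ring theory

`E` is the endomorphism ring of a formal group `Γ` of height `n` over a field, `O` the order in `x`;
`S` the endomorphism ring of a deformation `F` of `Γ` over `k[[t]]`, of generic height `h`, `W` the
order in `x` over `k[[t]]`, `ρ : S → E` the reduction.
-/

namespace H85.CH

/-- rules for the order of an endomorphism -/
structure Ordr (p n : ℕ) {E : Type*} [Ring E] (O : E → ℕ∞) : Prop where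
  mul : ∀ f g, O (f * g) = O f * O g
  add : ∀ f g, min (O f) (O g) ≤ O (f + g)
  neg : ∀ f, O (-f) = O f
  pos : ∀ f, 1 ≤ O f
  zero : ∀ f, O f = ⊤ → f = 0
  pval : O (p : E) = (p : ℕ∞) ^ n

variable {p n h : ℕ} {E S : Type*} [Ring E] [Ring S] {O : E → ℕ∞} {W : S → ℕ∞}

theorem Ordr.sub (hO : Ordr p n O) (f g : E) : min (O f) (O g) ≤ O (f - g) := by
  have := hO.add f (-g)
  rwa [hO.neg, ← sub_eq_add_neg] at this

theorem Ordr.add_eq (hO : Ordr p n O) {f g : E} (h : O f < O g) : O (f + g) = O f := by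
  apply le_antisymm
  · by_contra hcon
    have h1 : O f < O (f + g) := not_le.1 hcon
    have h2 := hO.sub (f + g) g
    rw [add_sub_cancel_right] at h2
    exact absurd (lt_of_lt_of_le (lt_min h1 h) h2) (lt_irrefl _)
  · have h1 := hO.add f g
    rwa [min_eq_left h.le] at h1

theorem Ordr.one (hO : Ordr p n O) [Nontrivial E] : O (1 : E) = 1 := by
  have h1 := hO.mul 1 1
  rw [mul_one] at h1
  have h2 : O (1 : E) ≠ ⊤ := fun h => one_ne_zero (hO.zero _ h)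
  obtain ⟨a, ha⟩ := ENat.ne_top_iff_exists.1 h2
  rw [← ha] at h1 ⊢
  have h3 : a = a * a := by exact_mod_cast h1
  have h4 : 1 ≤ a := by
    have := hO.pos (1 : E)
    rw [← ha] at this
    exact_mod_cast this
  have h5 : a = 1 := by
    by_contra hne
    have h6 : 2 ≤ a := by omega
    nlinarith
  rw [h5]
  rfl

theorem Ordr.pow (hO : Ordr p n O) [Nontrivial E] (f : E) (m : ℕ) : O (f ^ m) = O f ^ m := by
  induction m with
  | zero => rw [pow_zero, pow_zero, hO.one]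
  | succ m ih => rw [pow_succ, hO.mul, ih, pow_succ]

/-- the degree lemma -/
theorem degree_lemma (hp : 1 < p) (hh : 1 ≤ h) (hn : 1 ≤ n) [Nontrivial E] [Nontrivial S]
    (hO : Ordr p n O) (hW : Ordr p h W)
    (hdiv : ∀ (f : E) (s : ℕ), ((p : ℕ∞) ^ n) ^ s ≤ O f → ∃ g, f = (p : E) ^ s * g)
    (hfin : ∀ (f : E) (c : ℕ), ∃ a b : ℕ, a < b ∧ ((p : ℕ∞) ^ n) ^ c ≤ O (f ^ b - f ^ a))
    (ρ : S →+* E) (hρ : Function.Injective ρ) (u₀ : ℕ)
    (hsat : ∀ (u : ℕ) (ξ : E), (∃ f, ρ f = (p : E) ^ u * ξ) → ∃ f, ρ f = (p : E) ^ u₀ * ξ)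
    (f : S) (m : ℕ) (hf : O (ρ f) = (p : ℕ∞) ^ m) : W f ^ n = ((p : ℕ∞) ^ h) ^ m := by
  have hpE : ∀ (s : ℕ) (x : E), (p : E) ^ s * x = x * (p : E) ^ s := fun s x =>
    ((Nat.cast_commute p x).pow_left s).eq
  -- f^n = p^m υ
  have h1 : O (ρ (f ^ n)) = ((p : ℕ∞) ^ n) ^ m := by
    rw [map_pow, hO.pow, hf, ← pow_mul, ← pow_mul, mul_comm]
  obtain ⟨υ, hυ⟩ := hdiv (ρ (f ^ n)) m h1.ge
  have hpm : ((p : ℕ∞) ^ n) ^ m ≠ ⊤ := by
    have : ((p : ℕ∞) ^ n) ^ m = (((p ^ n) ^ m : ℕ) : ℕ∞) := by push_cast; ring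
    rw [this]
    exact ENat.natCast_ne_top _
  have hOυ : O υ = 1 := by
    rw [hυ, hO.mul, hO.pow, hO.pval] at h1
    have hne : O υ ≠ ⊤ := by
      intro htop
      rw [htop, ENat.mul_top] at h1
      · exact hpm h1.symm
      · have : 0 < ((p : ℕ∞) ^ n) ^ m := by positivity
        exact this.ne'
    obtain ⟨a, ha⟩ := ENat.ne_top_iff_exists.1 hne
    rw [← ha] at h1 ⊢
    have h2 : (p ^ n) ^ m * a = (p ^ n) ^ m := by exact_mod_cast h1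
    have h3 : 0 < (p ^ n) ^ m := by positivity
    have h4 : a = 1 := Nat.eq_of_mul_eq_mul_left h3 (by rw [h2, mul_one])
    rw [h4]; rfl
  -- υ^N1 = 1 + p^c ξ
  set c : ℕ := u₀ + 1 with hc
  obtain ⟨a, b, hab, hOab⟩ := hfin υ c
  set N1 : ℕ := b - a with hN1
  have hN1pos : 0 < N1 := by omega
  have h2 : υ ^ b - υ ^ a = υ ^ a * (υ ^ N1 - 1) := by
    rw [mul_sub, mul_one, ← pow_add]
    congr 2
    omega
  have h3 : ((p : ℕ∞) ^ n) ^ c ≤ O (υ ^ N1 - 1) := by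
    rw [h2, hO.mul, hO.pow, hOυ, one_pow, one_mul] at hOab
    exact hOab
  obtain ⟨ξ, hξ⟩ := hdiv _ c h3
  -- g = f^(n N1) - p^(m N1)
  set g : S := f ^ (n * N1) - (p : S) ^ (m * N1) with hg
  have hρg : ρ g = (p : E) ^ (m * N1 + c) * ξ := by
    have h4 : υ ^ N1 = 1 + (p : E) ^ c * ξ := by rw [← hξ]; abel
    have hcomm : ((p : E) ^ m * υ) ^ N1 = ((p : E) ^ m) ^ N1 * υ ^ N1 :=
      (((Nat.cast_commute p υ).pow_left m)).mul_pow N1
    rw [hg, map_sub, pow_mul, map_pow, hυ, hcomm, h4, map_pow, map_natCast, ← pow_mul, mul_add,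
      mul_one, ← mul_assoc, ← pow_add]
    abel
  obtain ⟨η, hη⟩ := hsat _ ξ ⟨g, hρg⟩
  have hg2 : g = (p : S) ^ (m * N1 + 1) * η := by
    apply hρ
    rw [hρg, map_mul, map_pow, map_natCast, hη, ← mul_assoc, ← pow_add]
    congr 2
    omega
  have hWg : ((p : ℕ∞) ^ h) ^ (m * N1 + 1) ≤ W g := by
    rw [hg2, hW.mul, hW.pow, hW.pval]
    exact le_mul_of_one_le_right' (hW.pos η)
  have hWp : W ((p : S) ^ (m * N1)) = ((p : ℕ∞) ^ h) ^ (m * N1) := by rw [hW.pow, hW.pval]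
  have hlt : W ((p : S) ^ (m * N1)) < W g := by
    rw [hWp]
    refine lt_of_lt_of_le ?_ hWg
    have h5 : (p ^ h) ^ (m * N1) < (p ^ h) ^ (m * N1 + 1) := by
      apply Nat.pow_lt_pow_right
      · exact Nat.one_lt_pow (by omega) hp
      · omega
    exact_mod_cast h5
  have h6 : W (f ^ (n * N1)) = ((p : ℕ∞) ^ h) ^ (m * N1) := by
    have h7 : f ^ (n * N1) = (p : S) ^ (m * N1) + g := by rw [hg]; abel
    rw [h7, hW.add_eq hlt, hWp]
  rw [hW.pow] at h6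
  have hWf : W f ≠ ⊤ := by
    intro htop
    have h8 : n * N1 ≠ 0 := Nat.mul_ne_zero (by omega) (by omega)
    rw [htop, ENat.top_pow h8] at h6
    have h9 : ((p : ℕ∞) ^ h) ^ (m * N1) = (((p ^ h) ^ (m * N1) : ℕ) : ℕ∞) := by push_cast; ring
    rw [h9] at h6
    exact ENat.natCast_ne_top _ h6.symm
  obtain ⟨w, hw⟩ := ENat.ne_top_iff_exists.1 hWf
  rw [← hw] at h6 ⊢
  have h7 : w ^ (n * N1) = (p ^ h) ^ (m * N1) := by exact_mod_cast h6
  have h8 : w ^ n = (p ^ h) ^ m := by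
    rw [pow_mul, pow_mul] at h7
    exact Nat.pow_left_injective (by omega) h7
  exact_mod_cast h8

/-- no endomorphism of the deformation reduces to an element of order `p ^ (n a + 1)` -/
theorem no_odd (hp : p.Prime) (hh : 1 ≤ h) (hhn : h < n) [Nontrivial E] [Nontrivial S]
    (hO : Ordr p n O) (hW : Ordr p h W)
    (hdiv : ∀ (f : E) (s : ℕ), ((p : ℕ∞) ^ n) ^ s ≤ O f → ∃ g, f = (p : E) ^ s * g)
    (hfin : ∀ (f : E) (c : ℕ), ∃ a b : ℕ, a < b ∧ ((p : ℕ∞) ^ n) ^ c ≤ O (f ^ b - f ^ a))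
    (ρ : S →+* E) (hρ : Function.Injective ρ) (u₀ : ℕ)
    (hsat : ∀ (u : ℕ) (ξ : E), (∃ f, ρ f = (p : E) ^ u * ξ) → ∃ f, ρ f = (p : E) ^ u₀ * ξ)
    (f : S) (a : ℕ) : O (ρ f) ≠ (p : ℕ∞) ^ (n * a + 1) := by
  intro hf
  have h1 := degree_lemma hp.one_lt hh (by omega) hO hW hdiv hfin ρ hρ u₀ hsat f _ hf
  have hWf : W f ≠ ⊤ := by
    intro htop
    rw [htop, ENat.top_pow (by omega)] at h1
    have h9 : ((p : ℕ∞) ^ h) ^ (n * a + 1) = (((p ^ h) ^ (n * a + 1) : ℕ) : ℕ∞) := by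
      push_cast; ring
    rw [h9] at h1
    exact ENat.natCast_ne_top _ h1.symm
  obtain ⟨w, hw⟩ := ENat.ne_top_iff_exists.1 hWf
  rw [← hw] at h1
  have h2 : w ^ n = (p ^ h) ^ (n * a + 1) := by exact_mod_cast h1
  rw [← pow_mul] at h2
  obtain ⟨j, _, hj⟩ := (Nat.dvd_prime_pow hp).1 (h2 ▸ dvd_pow_self w (by omega : n ≠ 0))
  rw [hj, ← pow_mul] at h2
  have h3 : j * n = h * (n * a + 1) := Nat.pow_right_injective hp.two_le h2
  have h4 : n ∣ h := by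
    have h5 : n ∣ h * (n * a + 1) := ⟨j, by rw [← h3, mul_comm]⟩
    have h6 : Nat.Coprime n (n * a + 1) := by
      simp
    exact h6.dvd_of_dvd_mul_right h5
  exact absurd (Nat.le_of_dvd (by omega) h4) (by omega)

/-- the conjugation argument: `p ^ u θ` does not lift if `1 + p ^ a ϖ` normalises the image -/
theorem no_lift (hp : p.Prime) (hh : 1 ≤ h) (hhn : h < n) [Nontrivial E] [Nontrivial S]
    (hO : Ordr p n O) (hW : Ordr p h W)
    (hdiv : ∀ (f : E) (s : ℕ), ((p : ℕ∞) ^ n) ^ s ≤ O f → ∃ g, f = (p : E) ^ s * g)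
    (hfin : ∀ (f : E) (c : ℕ), ∃ a b : ℕ, a < b ∧ ((p : ℕ∞) ^ n) ^ c ≤ O (f ^ b - f ^ a))
    (ρ : S →+* E) (hρ : Function.Injective ρ) (u₀ : ℕ)
    (hsat : ∀ (u : ℕ) (ξ : E), (∃ f, ρ f = (p : E) ^ u * ξ) → ∃ f, ρ f = (p : E) ^ u₀ * ξ)
    (θ ϖ : E) (a : ℕ) (hϖ : O (ϖ * θ - θ * ϖ) = (p : ℕ∞))
    (σ : Eˣ) (hσ : (σ : E) = 1 + (p : E) ^ a * ϖ)
    (hconj : ∀ f : S, ∃ g : S, ρ g = σ * ρ f * ((σ⁻¹ : Eˣ) : E)) (u : ℕ) :
    ¬ ∃ f, ρ f = (p : E) ^ u * θ := by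
  rintro ⟨f, hf⟩
  obtain ⟨g, hg⟩ := hconj f
  have hpE : ∀ (s : ℕ) (x : E), x * (p : E) ^ s = (p : E) ^ s * x := fun s x =>
    (((Nat.cast_commute p x).pow_left s).eq).symm
  have hunit : O ((σ⁻¹ : Eˣ) : E) = 1 := by
    have h1 : O ((σ : E) * ((σ⁻¹ : Eˣ) : E)) = 1 := by rw [Units.mul_inv, hO.one]
    rw [hO.mul] at h1
    have h2 : O ((σ⁻¹ : Eˣ) : E) ≤ 1 := by
      calc O ((σ⁻¹ : Eˣ) : E) ≤ O (σ : E) * O ((σ⁻¹ : Eˣ) : E) :=
            le_mul_of_one_le_left' (hO.pos _)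
        _ = 1 := h1
    exact le_antisymm h2 (hO.pos _)
  refine no_odd hp hh hhn hO hW hdiv hfin ρ hρ u₀ hsat (g - f) (a + u) ?_
  have h1 : ρ (g - f) = (p : E) ^ (a + u) * (ϖ * θ - θ * ϖ) * ((σ⁻¹ : Eˣ) : E) := by
    have h2 : ρ (g - f) = ((σ : E) * ρ f - ρ f * σ) * ((σ⁻¹ : Eˣ) : E) := by
      rw [map_sub, hg, sub_mul, mul_assoc (ρ f), Units.mul_inv, mul_one]
    rw [h2, hσ, hf]
    congr 1
    have h3 : (p : E) ^ a * ϖ * ((p : E) ^ u * θ) = (p : E) ^ (a + u) * (ϖ * θ) := by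
      rw [pow_add, mul_assoc, ← mul_assoc ϖ, hpE u ϖ]
      simp only [mul_assoc]
    have h4 : (p : E) ^ u * θ * ((p : E) ^ a * ϖ) = (p : E) ^ (a + u) * (θ * ϖ) := by
      rw [add_comm a u, pow_add, mul_assoc, ← mul_assoc θ, hpE a θ]
      simp only [mul_assoc]
    rw [add_mul, mul_add, one_mul, mul_one, h3, h4, mul_sub]
    abel
  rw [h1, hO.mul, hO.mul, hO.pow, hO.pval, hϖ, hunit, mul_one, ← pow_mul, pow_succ]

end H85.CH
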