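import Mathlib

/-!
# Descent of subspaces for a set of field automorphisms

`K` a field, `U` a set of ring automorphisms of `K`.  A `K`-subspace of `ι →₀ K` stable under the
coordinatewise action of `U` is spanned by its `U`-fixed vectors (minimal support argument), and a
vector which is fixed modulo a stable subspace is a fixed vector modulo the subspace.
-/

namespace H85.CH

open Finsupp

/-- coordinatewise action -/
noncomputable def act {ι K : Type*} [Field K] (s : K ≃+* K) (w : ι →₀ K) : ι →₀ K :=
  w.mapRange s (map_zero s)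

/-- the vector `w` has coordinates fixed by all elements of `U` -/
def Fixd {ι K : Type*} [Field K] (U : Set (K ≃+* K)) (w : ι →₀ K) : Prop :=
  ∀ s ∈ U, ∀ i, s (w i) = w i

theorem act_apply {ι K : Type*} [Field K] (s : K ≃+* K) (w : ι →₀ K) (i : ι) :
    act s w i = s (w i) := by
  simp [act]

theorem act_eq_self {ι K : Type*} [Field K] {s : K ≃+* K} {w : ι →₀ K}
    (h : ∀ i, s (w i) = w i) : act s w = w := by
  ext i
  rw [act_apply, h]

/-- every stable subspace is spanned by its fixed vectors -/
theorem gd1 {ι K : Type*} [Field K] (U : Set (K ≃+* K)) (W : Submodule K (ι →₀ K))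
    (hW : ∀ s ∈ U, ∀ w ∈ W, act s w ∈ W) :
    ∀ w ∈ W, w ∈ Submodule.span K {w : ι →₀ K | w ∈ W ∧ Fixd U w} := by
  classical
  intro w
  induction hn : w.support.card using Nat.strong_induction_on generalizing w with
  | _ n ih =>
    intro hw
    by_cases hw0 : w = 0
    · rw [hw0]; exact Submodule.zero_mem _
    -- choose a non-zero element of minimal support
    have hex : ∃ m, ∃ v ∈ W, v ≠ 0 ∧ v.support ⊆ w.support ∧ v.support.card = m :=
      ⟨_, w, hw, hw0, subset_rfl, rfl⟩
    obtain ⟨v, hvW, hv0, hvs, hvm⟩ := Nat.find_spec hex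
    have hmin : ∀ v' ∈ W, v' ≠ 0 → v'.support ⊆ w.support →
        Nat.find hex ≤ v'.support.card := fun v' h1 h2 h3 =>
      Nat.find_min' hex ⟨v', h1, h2, h3, rfl⟩
    obtain ⟨i, hi⟩ : ∃ i, v i ≠ 0 := by
      by_contra hcon
      push Not at hcon
      exact hv0 (Finsupp.ext fun i => by simp [hcon i])
    set v1 : ι →₀ K := (v i)⁻¹ • v with hv1
    have hv1i : v1 i = 1 := by simp [hv1, hi]
    have hv1W : v1 ∈ W := W.smul_mem _ hvW
    have hv1s : v1.support = v.support := by
      ext j
      simp [hv1, hi]
    have hfix : Fixd U v1 := by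
      intro s hs
      have hsub : act s v1 - v1 = 0 := by
        by_contra hne
        have h1 : act s v1 - v1 ∈ W := W.sub_mem (hW s hs _ hv1W) hv1W
        have h2 : (act s v1 - v1).support ⊆ v1.support.erase i := by
          intro j hj
          rw [Finset.mem_erase]
          refine ⟨?_, ?_⟩
          · rintro rfl
            apply Finsupp.mem_support_iff.1 hj
            rw [Finsupp.sub_apply, act_apply, hv1i, map_one, sub_self]
          · rw [Finsupp.mem_support_iff]
            intro h0
            apply Finsupp.mem_support_iff.1 hj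
            rw [Finsupp.sub_apply, act_apply, h0, map_zero, sub_self]
        have h3 : (act s v1 - v1).support ⊆ w.support :=
          h2.trans ((Finset.erase_subset _ _).trans (hv1s ▸ hvs))
        have h4 := hmin _ h1 hne h3
        have h5 : (act s v1 - v1).support.card < v1.support.card := by
          calc (act s v1 - v1).support.card ≤ (v1.support.erase i).card := Finset.card_le_card h2
            _ < v1.support.card := Finset.card_erase_lt_of_mem (by simp [hv1i])
        rw [hv1s, hvm] at h5
        omega
      intro j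
      have := DFunLike.congr_fun (sub_eq_zero.1 hsub) j
      rwa [act_apply] at this
    -- subtract
    have hlt : (w - w i • v1).support.card < n := by
      rw [← hn]
      have hiw : i ∈ w.support := hvs (Finsupp.mem_support_iff.2 hi)
      refine lt_of_le_of_lt (Finset.card_le_card (t := w.support.erase i) ?_)
        (Finset.card_erase_lt_of_mem hiw)
      intro j hj
      rw [Finset.mem_erase]
      refine ⟨?_, ?_⟩
      · rintro rfl
        apply Finsupp.mem_support_iff.1 hj
        simp [hv1i]
      · by_contra hjw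
        have h1 : w j = 0 := by simpa using hjw
        have h2 : v1 j = 0 := by
          have : j ∉ v1.support := fun h => hjw (hvs (hv1s ▸ h))
          simpa using this
        apply Finsupp.mem_support_iff.1 hj
        simp [h1, h2]
    have h6 := ih _ hlt _ rfl (W.sub_mem hw (W.smul_mem _ hv1W))
    have h7 : w = (w - w i • v1) + w i • v1 := by abel
    rw [h7]
    exact Submodule.add_mem _ h6 (Submodule.smul_mem _ _ (Submodule.subset_span ⟨hv1W, hfix⟩))

/-- a vector fixed modulo a stable subspace -/
theorem gd1' {ι K : Type*} [Field K] (U : Set (K ≃+* K)) (W : Submodule K (ι →₀ K))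
    (hW : ∀ s ∈ U, ∀ w ∈ W, act s w ∈ W) (r : ι →₀ K) (hr : ∀ s ∈ U, act s r - r ∈ W) :
    ∃ r0 : ι →₀ K, Fixd U r0 ∧ r - r0 ∈ W := by
  classical
  by_cases hrW : r ∈ W
  · exact ⟨0, fun s _ i => by simp, by simpa using hrW⟩
  have hadd : ∀ (s : K ≃+* K) (x y : ι →₀ K), act s (x + y) = act s x + act s y := fun s x y => by
    ext i; simp [act_apply]
  have hsmul : ∀ (s : K ≃+* K) (c : K) (x : ι →₀ K), act s (c • x) = s c • act s x :=
    fun s c x => by ext i; simp [act_apply]
  set W' : Submodule K (ι →₀ K) := W ⊔ Submodule.span K {r} with hW'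
  have hst : ∀ s ∈ U, ∀ w ∈ W', act s w ∈ W' := by
    intro s hs w hw
    obtain ⟨a, ha, b, hb, rfl⟩ := Submodule.mem_sup.1 hw
    obtain ⟨c, rfl⟩ := Submodule.mem_span_singleton.1 hb
    rw [hadd, hsmul]
    have h1 : act s r = (act s r - r) + r := by abel
    rw [h1]
    refine Submodule.add_mem _ (Submodule.mem_sup_left (hW s hs a ha)) ?_
    exact Submodule.smul_mem _ _ (Submodule.add_mem _ (Submodule.mem_sup_left (hr s hs))
      (Submodule.mem_sup_right (Submodule.mem_span_singleton_self r)))
  have hrW' : r ∈ W' := Submodule.mem_sup_right (Submodule.mem_span_singleton_self r)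
  have hsp := gd1 U W' hst r hrW'
  obtain ⟨r0, hr0, hr0W⟩ : ∃ r0 : ι →₀ K, (r0 ∈ W' ∧ Fixd U r0) ∧ r0 ∉ W := by
    by_contra hcon
    push Not at hcon
    apply hrW
    exact Submodule.span_le.2 (fun x hx => hcon x hx) hsp
  obtain ⟨⟨hr0', hfix⟩, h0⟩ := (⟨hr0, hr0W⟩ : (r0 ∈ W' ∧ Fixd U r0) ∧ r0 ∉ W)
  obtain ⟨w1, hw1, b, hb, hsum⟩ := Submodule.mem_sup.1 hr0'
  obtain ⟨c, rfl⟩ := Submodule.mem_span_singleton.1 hb
  have hc0 : c ≠ 0 := by
    rintro rfl
    apply h0
    rw [← hsum]
    simpa using hw1
  have hcfix : ∀ s ∈ U, s c = c := by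
    intro s hs
    by_contra hne
    apply hrW
    have h1 : act s r0 = r0 := act_eq_self (hfix s hs)
    rw [← hsum, hadd, hsmul] at h1
    have h2 : (s c - c) • r ∈ W := by
      have h3 : (s c - c) • r = w1 - act s w1 - s c • (act s r - r) := by
        have h4 : s c • act s r = w1 + c • r - act s w1 := by
          rw [← h1]; abel
        rw [smul_sub, h4, sub_smul]
        abel
      rw [h3]
      exact W.sub_mem (W.sub_mem hw1 (hW s hs _ hw1)) (W.smul_mem _ (hr s hs))
    have h5 : r = (s c - c)⁻¹ • ((s c - c) • r) := by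
      rw [smul_smul, inv_mul_cancel₀ (sub_ne_zero.2 hne), one_smul]
    rw [h5]
    exact W.smul_mem _ h2
  refine ⟨c⁻¹ • r0, ?_, ?_⟩
  · intro s hs i
    simp only [Finsupp.smul_apply, smul_eq_mul, map_mul, map_inv₀]
    rw [hcfix s hs, hfix s hs]
  · have h6 : r - c⁻¹ • r0 = -(c⁻¹ • w1) := by
      rw [← hsum, smul_add, smul_smul, inv_mul_cancel₀ hc0, one_smul]
      abel
    rw [h6]
    exact W.neg_mem (W.smul_mem _ hw1)

end H85.CH
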