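import Pool.Agent.H85.CH.Ku1

/-!
# Fixed fields of large sets of automorphisms over `k((u))`

`k` algebraically closed, `κ = Frac k[[X]]`, `K/κ` algebraic, `Q` a set of pairs `(φ, s)`,
`φ` an automorphism of `k[[X]]` over `k`, `s` an automorphism of `K` extending `φ`, with infinitely
many `φ`.  The common fixed points of the `s` are the elements of `k`.
-/

namespace H85.CH

open PowerSeries

theorem fixed_powerSeries {k : Type*} [Field k] (S : Set (k⟦X⟧ ≃ₐ[k] k⟦X⟧)) (hinf : S.Infinite)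
    (f : k⟦X⟧) (hf : ∀ φ ∈ S, φ f = f) : f = C (constantCoeff f) := by
  by_contra hne
  apply hinf
  refine fin_aut (f - C (constantCoeff f)) (sub_ne_zero.2 hne) (by simp) S ?_
  intro φ hφ
  rw [map_sub, hf φ hφ]
  congr 1
  exact φ.commutes _

theorem ku {k κ K : Type*} [Field k] [IsAlgClosed k] [Field κ] [Algebra k⟦X⟧ κ]
    [IsFractionRing k⟦X⟧ κ] [Field K] [Algebra κ K] [Algebra.IsAlgebraic κ K]
    (Q : Set ((k⟦X⟧ ≃ₐ[k] k⟦X⟧) × (K ≃+* K)))
    (hQ : ∀ q ∈ Q, ∀ f : k⟦X⟧, q.2 (algebraMap κ K (algebraMap k⟦X⟧ κ f)) =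
      algebraMap κ K (algebraMap k⟦X⟧ κ (q.1 f)))
    (hinf : (Prod.fst '' Q).Infinite) (x : K) (hx : ∀ q ∈ Q, q.2 x = x) :
    ∃ c : k, algebraMap κ K (algebraMap k⟦X⟧ κ (C c)) = x := by
  classical
  -- the automorphism of κ
  let s : (k⟦X⟧ ≃ₐ[k] k⟦X⟧) → (κ ≃+* κ) := fun φ =>
    IsFractionRing.ringEquivOfRingEquiv (K := κ) (L := κ) φ.toRingEquiv
  have hs : ∀ φ f, s φ (algebraMap k⟦X⟧ κ f) = algebraMap k⟦X⟧ κ (φ f) := fun φ f =>
    IsFractionRing.ringEquivOfRingEquiv_algebraMap _ _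
  have hcomp : ∀ q ∈ Q, ∀ y : κ, q.2 (algebraMap κ K y) = algebraMap κ K (s q.1 y) := by
    intro q hq y
    obtain ⟨a, b, _, rfl⟩ := IsFractionRing.div_surjective (A := k⟦X⟧) y
    rw [map_div₀, map_div₀, hQ q hq, hQ q hq, map_div₀, map_div₀, hs, hs]
  -- fixed elements of κ
  have hκ : ∀ y : κ, (∀ q ∈ Q, s q.1 y = y) → ∃ c : k, algebraMap k⟦X⟧ κ (C c) = y := by
    have hint : ∀ f : k⟦X⟧, (∀ q ∈ Q, s q.1 (algebraMap k⟦X⟧ κ f) = algebraMap k⟦X⟧ κ f) →
        f = C (constantCoeff f) := by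
      intro f hf
      refine fixed_powerSeries (Prod.fst '' Q) hinf f ?_
      rintro _ ⟨q, hq, rfl⟩
      have := hf q hq
      rw [hs] at this
      exact IsFractionRing.injective k⟦X⟧ κ this
    intro y hy
    rcases ValuationRing.isInteger_or_isInteger k⟦X⟧ y with ⟨f, hf⟩ | ⟨f, hf⟩
    · have h1 := hint f (fun q hq => by rw [hf]; exact hy q hq)
      exact ⟨constantCoeff f, by rw [← h1, hf]⟩
    · have h1 := hint f (fun q hq => by rw [hf, map_inv₀, hy q hq])
      refine ⟨(constantCoeff f)⁻¹, ?_⟩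
      have hcc : algebraMap k⟦X⟧ κ (C (constantCoeff f)) = y⁻¹ := by rw [← h1, hf]
      have hgen : ∀ c : k, algebraMap k⟦X⟧ κ (C c) = y⁻¹ → algebraMap k⟦X⟧ κ (C c⁻¹) = y := by
        intro c hc
        by_cases h0 : c = 0
        · subst h0
          rw [map_zero, map_zero] at hc
          rw [inv_zero, map_zero, map_zero, ← inv_inv y, ← hc, inv_zero]
        · have h2 : algebraMap k⟦X⟧ κ (C c) * algebraMap k⟦X⟧ κ (C c⁻¹) = 1 := by
            rw [← map_mul, ← map_mul, mul_inv_cancel₀ h0, map_one, map_one]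
          rw [hc] at h2
          have h3 := eq_inv_of_mul_eq_one_right h2
          rw [h3, inv_inv]
      exact hgen _ hcc
  -- the minimal polynomial
  have hxi : IsIntegral κ x := Algebra.IsIntegral.isIntegral x
  set m := minpoly κ x with hm
  have hmm : m.Monic := minpoly.monic hxi
  have hfix : ∀ q ∈ Q, m.map (s q.1 : κ →+* κ) = m := by
    intro q hq
    have h1 : Polynomial.aeval x (m.map (s q.1 : κ →+* κ)) = 0 := by
      rw [Polynomial.aeval_def, Polynomial.eval₂_map]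
      have h2 : (algebraMap κ K).comp (s q.1 : κ →+* κ) = (q.2 : K →+* K).comp (algebraMap κ K) := by
        ext y
        exact (hcomp q hq y).symm
      rw [h2]
      have h3 := Polynomial.hom_eval₂ m (algebraMap κ K) (q.2 : K →+* K) x
      have h4 : (q.2 : K →+* K) x = x := hx q hq
      rw [h4] at h3
      rw [← h3]
      have h5 : Polynomial.eval₂ (algebraMap κ K) x m = 0 := minpoly.aeval κ x
      rw [h5, map_zero]
    have h2 : m ∣ m.map (s q.1 : κ →+* κ) := minpoly.dvd κ x h1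
    exact Polynomial.eq_of_monic_of_dvd_of_natDegree_le hmm (hmm.map _) h2
      (Polynomial.natDegree_map_le)
  have hcoef : ∀ i, ∃ c : k, algebraMap k⟦X⟧ κ (C c) = m.coeff i := by
    intro i
    refine hκ _ fun q hq => ?_
    have := congrArg (fun p => Polynomial.coeff p i) (hfix q hq)
    simpa [Polynomial.coeff_map] using this
  -- conclusion
  let j : k →+* κ := (algebraMap k⟦X⟧ κ).comp (C (R := k))
  let _ : Algebra k K := ((algebraMap κ K).comp j).toAlgebra
  have hlift : m ∈ Polynomial.lifts j := by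
    rw [Polynomial.lifts_iff_coeff_lifts]
    intro i
    obtain ⟨c, hc⟩ := hcoef i
    exact ⟨c, hc⟩
  obtain ⟨p, hp, _, hpm⟩ := Polynomial.lifts_and_degree_eq_and_monic hlift hmm
  have hki : IsIntegral k x := by
    refine ⟨p, hpm, ?_⟩
    have h1 : Polynomial.eval₂ (algebraMap κ K) x (p.map j) = 0 := by
      rw [hp]
      exact minpoly.aeval κ x
    rwa [Polynomial.eval₂_map] at h1
  obtain ⟨c, hc⟩ := minpoly.mem_range_of_degree_eq_one k x
    (IsAlgClosed.degree_eq_one_of_irreducible k (minpoly.irreducible hki))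
  exact ⟨c, hc⟩

end H85.CH
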