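import Pool.Agent.H85.CH.Ku2

/-!
# Fixed points in algebraic extensions of `k((u))`, uniform form

`k` algebraically closed, `κ = Frac k[[X]]`, `K/κ` algebraic, `a ∈ K` not in `k`.  There is `N ≥ 1`
such that `φ ^ N = 1` for every automorphism `φ` of `k[[X]]` over `k` which extends to a ring
endomorphism of `K` fixing `a`.
-/

namespace H85.CH

open PowerSeries

/-- uniform form for power series -/
theorem pow_eq_one_of_fixed {k : Type*} [Field k] (f : k⟦X⟧) (hf : f ≠ C (constantCoeff f)) :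
    ∃ N : ℕ, 1 ≤ N ∧ ∀ φ : k⟦X⟧ ≃ₐ[k] k⟦X⟧, φ f = f → φ ^ N = 1 := by
  classical
  let H : Subgroup (k⟦X⟧ ≃ₐ[k] k⟦X⟧) :=
    { carrier := {φ | φ f = f}
      mul_mem' := by
        intro a b ha hb
        show a (b f) = f
        have hb' : b f = f := hb
        rw [hb']; exact ha
      one_mem' := rfl
      inv_mem' := by
        intro a ha
        have ha' : a f = f := ha
        show a.symm f = f
        rw [AlgEquiv.symm_apply_eq]
        exact ha'.symm }
  have hfin : (H : Set (k⟦X⟧ ≃ₐ[k] k⟦X⟧)).Finite := by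
    refine fin_aut (f - C (constantCoeff f)) (sub_ne_zero.2 hf) (by simp) _ ?_
    intro φ hφ
    have hφ' : φ f = f := hφ
    rw [map_sub, hφ']
    congr 1
    exact φ.commutes _
  have : Finite H := hfin.to_subtype
  refine ⟨Nat.card H, Nat.one_le_iff_ne_zero.2 (Nat.card_pos.ne'), ?_⟩
  intro φ hφ
  have h1 : (⟨φ, hφ⟩ : H) ^ Nat.card H = 1 := pow_card_eq_one'
  exact congrArg Subtype.val h1

theorem kuN {k κ K : Type*} [Field k] [IsAlgClosed k] [Field κ] [Algebra k⟦X⟧ κ]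
    [IsFractionRing k⟦X⟧ κ] [Field K] [Algebra κ K] [Algebra.IsAlgebraic κ K]
    (a : K) (ha : ∀ c : k, algebraMap κ K (algebraMap k⟦X⟧ κ (C c)) ≠ a) :
    ∃ N : ℕ, 1 ≤ N ∧ ∀ (φ : k⟦X⟧ ≃ₐ[k] k⟦X⟧) (τ : K →+* K),
      (∀ f : k⟦X⟧, τ (algebraMap κ K (algebraMap k⟦X⟧ κ f)) =
        algebraMap κ K (algebraMap k⟦X⟧ κ (φ f))) → τ a = a → φ ^ N = 1 := by
  classical
  -- the automorphism of κ
  let s : (k⟦X⟧ ≃ₐ[k] k⟦X⟧) → (κ ≃+* κ) := fun φ =>
    IsFractionRing.ringEquivOfRingEquiv (K := κ) (L := κ) φ.toRingEquiv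
  have hs : ∀ φ f, s φ (algebraMap k⟦X⟧ κ f) = algebraMap k⟦X⟧ κ (φ f) := fun φ f =>
    IsFractionRing.ringEquivOfRingEquiv_algebraMap _ _
  -- fixed elements of κ
  have hκ : ∀ y : κ, (∀ c : k, algebraMap k⟦X⟧ κ (C c) ≠ y) →
      ∃ N : ℕ, 1 ≤ N ∧ ∀ φ : k⟦X⟧ ≃ₐ[k] k⟦X⟧, s φ y = y → φ ^ N = 1 := by
    intro y hy
    rcases ValuationRing.isInteger_or_isInteger k⟦X⟧ y with ⟨f, hf⟩ | ⟨f, hf⟩
    · obtain ⟨N, hN, h⟩ := pow_eq_one_of_fixed f (fun h => hy (constantCoeff f) (by rw [← h, hf]))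
      refine ⟨N, hN, fun φ hφ => h φ ?_⟩
      have h1 : algebraMap k⟦X⟧ κ (φ f) = algebraMap k⟦X⟧ κ f := by rw [← hs, hf, hφ]
      exact IsFractionRing.injective k⟦X⟧ κ h1
    · obtain ⟨N, hN, h⟩ := pow_eq_one_of_fixed f (fun h => by
        have hcc : algebraMap k⟦X⟧ κ (C (constantCoeff f)) = y⁻¹ := by rw [← h, hf]
        have hgen : ∀ c : k, algebraMap k⟦X⟧ κ (C c) = y⁻¹ →
            algebraMap k⟦X⟧ κ (C c⁻¹) = y := by
          intro c hc
          by_cases h0 : c = 0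
          · subst h0
            rw [map_zero, map_zero] at hc
            rw [inv_zero, map_zero, map_zero, ← inv_inv y, ← hc, inv_zero]
          · have h2 : algebraMap k⟦X⟧ κ (C c) * algebraMap k⟦X⟧ κ (C c⁻¹) = 1 := by
              rw [← map_mul, ← map_mul, mul_inv_cancel₀ h0, map_one, map_one]
            rw [hc] at h2
            have h3 := eq_inv_of_mul_eq_one_right h2
            rw [h3, inv_inv]
        exact hy _ (hgen _ hcc))
      refine ⟨N, hN, fun φ hφ => h φ ?_⟩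
      have h1 : algebraMap k⟦X⟧ κ (φ f) = algebraMap k⟦X⟧ κ f := by
        rw [← hs, hf, map_inv₀, hφ]
      exact IsFractionRing.injective k⟦X⟧ κ h1
  -- the minimal polynomial
  have hxi : IsIntegral κ a := Algebra.IsIntegral.isIntegral a
  set m := minpoly κ a with hm
  have hmm : m.Monic := minpoly.monic hxi
  -- some coefficient is not in k
  obtain ⟨i, hi⟩ : ∃ i, ∀ c : k, algebraMap k⟦X⟧ κ (C c) ≠ m.coeff i := by
    by_contra hcon
    push Not at hcon
    let j : k →+* κ := (algebraMap k⟦X⟧ κ).comp (C (R := k))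
    let _ : Algebra k K := ((algebraMap κ K).comp j).toAlgebra
    have hlift : m ∈ Polynomial.lifts j := by
      rw [Polynomial.lifts_iff_coeff_lifts]
      intro i
      obtain ⟨c, hc⟩ := hcon i
      exact ⟨c, hc⟩
    obtain ⟨p, hp, _, hpm⟩ := Polynomial.lifts_and_degree_eq_and_monic hlift hmm
    have hki : IsIntegral k a := by
      refine ⟨p, hpm, ?_⟩
      have h1 : Polynomial.eval₂ (algebraMap κ K) a (p.map j) = 0 := by
        rw [hp]
        exact minpoly.aeval κ a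
      rwa [Polynomial.eval₂_map] at h1
    obtain ⟨c, hc⟩ := minpoly.mem_range_of_degree_eq_one k a
      (IsAlgClosed.degree_eq_one_of_irreducible k (minpoly.irreducible hki))
    exact ha c hc
  obtain ⟨N, hN, h⟩ := hκ _ hi
  refine ⟨N, hN, fun φ τ hφτ hτ => h φ ?_⟩
  have hcomp : ∀ y : κ, τ (algebraMap κ K y) = algebraMap κ K (s φ y) := by
    intro y
    obtain ⟨a, b, _, rfl⟩ := IsFractionRing.div_surjective (A := k⟦X⟧) y
    rw [map_div₀, map_div₀, hφτ, hφτ, map_div₀, map_div₀, hs, hs]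
  have hfix : m.map (s φ : κ →+* κ) = m := by
    have h1 : Polynomial.aeval a (m.map (s φ : κ →+* κ)) = 0 := by
      rw [Polynomial.aeval_def, Polynomial.eval₂_map]
      have h2 : (algebraMap κ K).comp (s φ : κ →+* κ) = τ.comp (algebraMap κ K) := by
        ext y
        exact (hcomp y).symm
      rw [h2]
      have h3 := Polynomial.hom_eval₂ m (algebraMap κ K) τ a
      rw [hτ] at h3
      rw [← h3]
      have h5 : Polynomial.eval₂ (algebraMap κ K) a m = 0 := minpoly.aeval κ a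
      rw [h5, map_zero]
    have h2 : m ∣ m.map (s φ : κ →+* κ) := minpoly.dvd κ a h1
    exact Polynomial.eq_of_monic_of_dvd_of_natDegree_le hmm (hmm.map _) h2
      (Polynomial.natDegree_map_le)
  have := congrArg (fun p => Polynomial.coeff p i) hfix
  simpa [Polynomial.coeff_map] using this

/-- the same with `k[[X]]`-algebra structure on `K` -/
theorem kuN' {k κ K : Type*} [Field k] [IsAlgClosed k] [Field κ] [Algebra k⟦X⟧ κ]
    [IsFractionRing k⟦X⟧ κ] [Field K] [Algebra κ K] [Algebra.IsAlgebraic κ K] [Algebra k⟦X⟧ K]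
    [IsScalarTower k⟦X⟧ κ K] (a : K) (ha : ∀ c : k, algebraMap k⟦X⟧ K (C c) ≠ a) :
    ∃ N : ℕ, 1 ≤ N ∧ ∀ (φ : k⟦X⟧ ≃ₐ[k] k⟦X⟧) (τ : K →+* K),
      (∀ f : k⟦X⟧, τ (algebraMap k⟦X⟧ K f) = algebraMap k⟦X⟧ K (φ f)) → τ a = a →
        φ ^ N = 1 := by
  obtain ⟨N, hN, h⟩ := kuN (k := k) (κ := κ) (K := K) a (by
    intro c
    rw [← IsScalarTower.algebraMap_apply]
    exact ha c)
  refine ⟨N, hN, fun φ τ hφ hτ => h φ τ ?_ hτ⟩
  intro f
  rw [← IsScalarTower.algebraMap_apply, ← IsScalarTower.algebraMap_apply]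
  exact hφ f

end H85.CH
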