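import Pool.Agent.H22.CG.Deg
import Pool.Agent.H22.CG.Star
import Pool.Agent.H13.CA.Grp2
import Pool.Agent.H85.CH.Gd2

/-!
# NOTR: no ample subgroup acts trivially on `k⟦u_(n-1)⟧`
-/

open MvPowerSeries

namespace H85.CH

open Pool.Agent.H13.CA Pool.Agent.H22.CG

/-- `π` does not change constant coefficients -/
theorem cc_proj {k : Type*} [Field k] {s : ℕ}
    {π : MvPowerSeries (Fin (s + 1)) k →ₐ[k] PowerSeries k} (hπ : IsProj k s π)
    (x : MvPowerSeries (Fin (s + 1)) k) :
    PowerSeries.constantCoeff (π x) = constantCoeff x := by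
  have hC : π (C (constantCoeff x)) = PowerSeries.C (constantCoeff x) := π.commutes _
  have h1 : Lo (0 + 1) (x - C (constantCoeff x)) := by
    intro d hd
    have hd0 : d = 0 := (Finsupp.degree_eq_zero_iff d).1 (by omega)
    subst hd0
    rw [coeff_zero_eq_constantCoeff_apply, map_sub, constantCoeff_C, sub_self]
  obtain ⟨g, _, hg⟩ := exists_decomp 0 _ h1
  have h2 : PowerSeries.constantCoeff (π (x - C (constantCoeff x))) = 0 := by
    rw [hg, map_sum, map_sum]
    refine Finset.sum_eq_zero fun i _ => ?_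
    rw [map_mul, map_mul]
    refine Fin.lastCases ?_ (fun j => ?_) i
    · rw [hπ.high, PowerSeries.constantCoeff_X, zero_mul]
    · rw [hπ.low, map_zero, zero_mul]
  rw [map_sub, hC, map_sub, PowerSeries.constantCoeff_C, sub_eq_zero] at h2
  exact h2

theorem Istd_le_ker (k : Type*) [Field k] (m j : ℕ) {x : MvPowerSeries (Fin m) k}
    (hx : x ∈ Istd k m j) : constantCoeff x = 0 := by
  have h1 : Istd k m j ≤ RingHom.ker (constantCoeff (σ := Fin m) (R := k)) := by
    unfold Istd
    rw [Ideal.span_le]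
    rintro _ ⟨i, _, rfl⟩
    exact constantCoeff_X i
  exact h1 hx

/-- the special fibre has height `m + 1` -/
theorem IsLT.height {k : Type*} [Field k] {p m : ℕ} {F : FormalGroup (MvPowerSeries (Fin m) k)}
    (hF : IsLT k p m F) : HasHeight p (m + 1) (special F) := by
  have h1 : ∀ i, PowerSeries.coeff i (mulSer (special F) p) =
      constantCoeff (PowerSeries.coeff i (mulSer F p)) := by
    intro i
    unfold special
    rw [mulSer_map, PowerSeries.coeff_map]
  refine ⟨fun i hi => ?_, ?_⟩
  · rw [h1]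
    exact Istd_le_ker k m m (hF.low m le_rfl i hi)
  · rw [h1]
    exact hF.top.map _

theorem iter_pow {R : Type*} [CommRing R] {F : FormalGroup R} [F.IsComm] (θ : EndF F) (N : ℕ) :
    iter θ.s N = (θ ^ N).s := by
  induction N with
  | zero => rw [pow_zero, EndF.one_s]; rfl
  | succ N ih => rw [pow_succ', EndF.mul_s, ← ih]; rfl

theorem nontriv {k : Type*} [Field k] [IsAlgClosed k] (p : ℕ) [Fact p.Prime] [CharP k p]
    {s : ℕ} {F : FormalGroup (MvPowerSeries (Fin (s + 1)) k)} (hF : IsLT k p (s + 1) F)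
    {π : MvPowerSeries (Fin (s + 1)) k →ₐ[k] PowerSeries k} (hπ : IsProj k s π)
    (V : Subgroup (Lift k F)) (hV : Ample V) :
    ∃ a ∈ V, ∃ x, π (a.g x) ≠ π x := by
  by_contra hcon
  push Not at hcon
  have hp : p.Prime := Fact.out
  have := hF.comm
  -- the family over `k⟦u⟧`
  set F' : FormalGroup (PowerSeries k) := F.map (π : MvPowerSeries (Fin (s + 1)) k →+* _) with hF'
  have : F'.IsComm := IsComm.map' hF.comm _
  have hcomp : (PowerSeries.constantCoeff (R := k)).comp
      (π : MvPowerSeries (Fin (s + 1)) k →+* PowerSeries k) =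
      (constantCoeff (σ := Fin (s + 1)) (R := k)) := RingHom.ext fun x => cc_proj hπ x
  have hspc : spc F' = special F := by
    unfold spc special
    rw [hF', fmap_map, hcomp]
  have hcoef : ∀ i, PowerSeries.coeff i (mulSer F' p) = π (PowerSeries.coeff i (mulSer F p)) := by
    intro i
    rw [hF', mulSer_map, PowerSeries.coeff_map]
    rfl
  have hlow : ∀ i, i < p ^ (s + 1) → PowerSeries.coeff i (mulSer F' p) = 0 := by
    intro i hi
    rw [hcoef]
    exact (hπ.ker _).2 (hF.low s (by omega) i hi)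
  have hv : PowerSeries.coeff (p ^ (s + 1)) (mulSer F' p) ≠ 0 := by
    rw [hcoef]
    have h1 := hF.mid (Fin.last s)
    have h2 := (hπ.ker _).2 h1
    rw [map_sub, hπ.high, sub_eq_zero] at h2
    have h3 : π (PowerSeries.coeff (p ^ (s + 1)) (mulSer F p)) = PowerSeries.X := h2
    rw [h3]
    exact PowerSeries.X_ne_zero
  have hsp : HasHeight p (s + 2) (spc F') := by
    rw [hspc]
    exact IsLT.height hF
  -- the element `P`
  obtain ⟨P, hP⟩ := exists_P p (Γ := spc F') (n := s + 2) (by omega) hsp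
  obtain ⟨hO, _, _, _, _, _⟩ := data p F' (h := s + 1) (n := s + 2) (by omega) (by omega) hlow hv hsp
  set y : EndF (spc F') := (p : EndF (spc F')) ^ 2 * P with hy
  have hOy : od y = ((p ^ ((s + 2) * 2 + 1) : ℕ) : ℕ∞) := by
    have hPo : od P = (p : ℕ∞) := hP
    rw [hy, hO.mul, hO.pow, hO.pval, hPo]
    push_cast
    rw [pow_succ (p : ℕ∞) ((s + 2) * 2), pow_mul (p : ℕ∞) (s + 2) 2]
  have hyl : PowerSeries.coeff 1 (1 + y).s = 1 := by
    have h1 : lin (spc F') (1 + y) = 1 := by
      rw [hy, map_add, map_mul, map_pow, map_natCast, map_one, CharP.cast_eq_zero, zero_pow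
        (by omega), zero_mul, add_zero]
    exact h1
  -- the lifting
  obtain ⟨N, hN, hamp⟩ := hV
  have hhom : IsHom (special F) (special F) (1 + y).s := by
    rw [← hspc]
    exact (1 + y).hom
  obtain ⟨a, ha, hred⟩ := hamp (1 + y).s hhom (by rw [hyl]; exact isUnit_one)
  have hπa : (π : MvPowerSeries (Fin (s + 1)) k →+* PowerSeries k).comp
      (a.g : MvPowerSeries (Fin (s + 1)) k →+* MvPowerSeries (Fin (s + 1)) k) =
      (π : MvPowerSeries (Fin (s + 1)) k →+* PowerSeries k) :=
    RingHom.ext fun x => hcon a ha x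
  have hend : IsHom F' F' (PowerSeries.map (π : MvPowerSeries (Fin (s + 1)) k →+* PowerSeries k)
      a.f) := by
    have h1 := a.hom.map (π : MvPowerSeries (Fin (s + 1)) k →+* PowerSeries k)
    rw [fmap_map, hπa] at h1
    exact h1
  have hmem : (1 + y) ^ N ∈ EI F' := by
    have h1 := map_mem_EI F' (⟨_, hend⟩ : EndF F')
    have h2 : @Eq (EndF (spc F')) (EndF.map F' (PowerSeries.constantCoeff (R := k))
        (⟨_, hend⟩ : EndF F')) ((1 + y) ^ N) := by
      apply EndF.ext
      rw [← iter_pow, ← hred]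
      have h3 := EndF.map_s F' (PowerSeries.constantCoeff (R := k)) (⟨_, hend⟩ : EndF F')
      refine h3.trans ?_
      show PowerSeries.map (PowerSeries.constantCoeff (R := k)) (PowerSeries.map
        (π : MvPowerSeries (Fin (s + 1)) k →+* PowerSeries k) a.f) = _
      rw [map_map', hcomp]
      rfl
    rw [h2] at h1
    exact h1
  have hmem' : (1 + y) ^ N - 1 ∈ EI F' := (EI F').sub_mem hmem (EI F').one_mem
  obtain ⟨v, hvO⟩ := hO.one_add_pow hp (by omega) (y := y) (by
    rw [hOy]
    have h1 : p ^ (s + 2) < p ^ ((s + 2) * 2 + 1) := by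
      apply Nat.pow_lt_pow_right hp.one_lt
      omega
    exact_mod_cast h1) (by rw [hOy]; exact ENat.natCast_ne_top _) hN
  have hord : ((1 + y) ^ N - 1 : EndF (spc F')).s.order =
      ((p ^ ((s + 2) * (v + 2) + 1) : ℕ) : ℕ∞) := by
    show od ((1 + y) ^ N - 1) = _
    rw [hvO, hOy]
    push_cast
    rw [← pow_mul, ← pow_add]
    congr 1
    ring
  have hdvd := degree p F' (h := s + 1) (n := s + 2) (by omega) (by omega) hlow hv hsp hmem' hord
  have h4 : (s + 2) ∣ (s + 1) := by
    have h6 : Nat.Coprime (s + 2) ((s + 2) * (v + 2) + 1) := by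
      simp
    exact h6.dvd_of_dvd_mul_right hdvd
  exact absurd (Nat.le_of_dvd (by omega) h4) (by omega)

end H85.CH
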